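import Pool.Agent.Helper58.FL2.Hm

/-!
# The frames of the completion functors, the bar frame
-/

open CategoryTheory MonoidalCategory Opposite

set_option autoImplicit false

namespace FL

noncomputable section

section E

variable {C : Type} [SmallCategory C]

/-- The product of `P` with the presheaf `[r](c) ↦ {0, …, m}^{r+1}` (the nerve of the chaotic
category with objects `0, …, m`). -/
@[simps obj_obj]
def E0o (P : SP (Wr C)) (m : SimplexCategory) : SP (Wr C) where
  obj θ :=
    { obj := fun k => (P.obj θ).obj k × (Fin (θ.unop.len + 1) → Fin (m.len + 1))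
      map := fun α => ↾ fun z => ((P.obj θ).map α z.1, z.2)
      map_id := fun k => by
        refine ConcreteCategory.hom_ext _ _ fun z => ?_
        exact Prod.ext (sset_id _ _) rfl
      map_comp := fun α β => by
        refine ConcreteCategory.hom_ext _ _ fun z => ?_
        exact Prod.ext (sset_comp _ α β _) rfl }
  map φ :=
    { app := fun k => ↾ fun z => ((P.map φ).app k z.1, fun i => z.2 (Wr.Hom.f φ.unop i))
      naturality := fun k l α => by
        refine ConcreteCategory.hom_ext _ _ fun z => ?_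
        exact Prod.ext (sp_nat P φ α _) rfl }
  map_id θ := by
    refine NatTrans.ext (funext fun k => ?_)
    refine ConcreteCategory.hom_ext _ _ fun z => ?_
    exact Prod.ext (sp_id P _) rfl
  map_comp φ ψ := by
    refine NatTrans.ext (funext fun k => ?_)
    refine ConcreteCategory.hom_ext _ _ fun z => ?_
    exact Prod.ext (sp_comp P φ ψ _) rfl

/-- Functoriality of `E0o`. -/
def E0m {P Q : SP (Wr C)} (f : P ⟶ Q) {m n : SimplexCategory} (α : m ⟶ n) :
    E0o P m ⟶ E0o Q n where
  app θ :=
    { app := fun k => ↾ fun z => ((f.app θ).app k z.1, fun i => α.toOrderHom (z.2 i))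
      naturality := fun k l β => by
        refine ConcreteCategory.hom_ext _ _ fun z => ?_
        exact Prod.ext (hom_natk f β _) rfl }
  naturality θ θ' φ := by
    refine NatTrans.ext (funext fun k => ?_)
    refine ConcreteCategory.hom_ext _ _ fun z => ?_
    exact Prod.ext (hom_nat f φ _) rfl

/-- The cosimplicial object `m ↦ P × E[m]`, functorially in `P`. -/
@[simps obj_obj obj_map]
def E0 (C : Type) [SmallCategory C] : SP (Wr C) ⥤ (SimplexCategory ⥤ SP (Wr C)) where
  obj P :=
    { obj := fun m => E0o P m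
      map := fun α => E0m (𝟙 P) α
      map_id := fun _ => rfl
      map_comp := fun _ _ => rfl }
  map f :=
    { app := fun m => E0m f (𝟙 m)
      naturality := fun _ _ _ => rfl }
  map_id _ := rfl
  map_comp _ _ := rfl

/-- The projection `P × E[m] ⟶ P`. -/
def E0aug (P : SP (Wr C)) : (E0 C).obj P ⟶ cc P where
  app m :=
    { app := fun θ =>
        { app := fun k => ↾ fun z => z.1
          naturality := fun _ _ _ => rfl }
      naturality := fun _ _ _ => rfl }
  naturality _ _ _ := rfl

/-- The sub-presheaf of `P × E[m]` of all pairs `(x, w)` such that `x ∈ S` or `w` is constant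
with value `v`. -/
def E0rel {P : SP (Wr C)} (S : Sb P) (m : SimplexCategory) (v : Fin (m.len + 1)) :
    Sb (E0o P m) where
  mem θ k := { z | z.1 ∈ S.mem θ k ∨ ∀ i, z.2 i = v }
  mapA := by
    rintro θ θ' φ k ⟨x, w⟩ (h | h)
    · exact Or.inl (S.mapA φ k x h)
    · exact Or.inr fun i => h _
  mapk := by
    rintro θ k l α ⟨x, w⟩ (h | h)
    · exact Or.inl (S.mapk θ α x h)
    · exact Or.inr fun i => h _

/-- The sub-presheaf of vertices of `[m](c)`: all morphisms which factor through `[0]`. -/
def vert (θ : Wr C) : Sb (rep θ) where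
  mem η _ := { (φ : η.unop ⟶ θ) | ∃ v, ∀ t, Wr.Hom.f φ t = v }
  mapA := by
    rintro η η' f k φ ⟨v, hv⟩
    exact ⟨v, fun t => hv _⟩
  mapk := by
    rintro η k l α φ h
    exact h

/-- The sub-presheaf `{0, 1}` of the nerve of the free-standing isomorphism. -/
def vertE (C : Type) [SmallCategory C] : Sb (disc (isoPsh C)) where
  mem η _ := { w | ∃ v : Bool, ∀ t, w t = v }
  mapA := by
    rintro η η' f k w ⟨v, hv⟩
    exact ⟨v, fun t => hv _⟩
  mapk := by
    rintro η k l α w h
    exact h

/-- The frame `θ ↦ (m ↦ h_θ × E[m])`. -/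
abbrev T0 (C : Type) [SmallCategory C] : Fr (Wr C) := yo (Wr C) ⋙ E0 C

/-- The augmentation of the frame `T0`. -/
def T0aug (C : Type) [SmallCategory C] : T0 C ⟶ yoFr (Wr C) where
  app θ := E0aug (rep θ)
  naturality _ _ _ := rfl

end E

section Wreath

variable {C : Type} [SmallCategory C]

/-- The image of a simplex of `V[m](X)` under a morphism `φ : θ ⟶ θ'` of the wreath product and
maps `X_j ⟶ Y_k` for `φ(j-1) < k ≤ φ(j)`. -/
@[simps f]
def VS.pushW {m m' : ℕ} {X : Fin m → SP C} {Y : Fin m' → SP C}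
    (p : Fin (m + 1) →o Fin (m' + 1)) (q : ∀ (j : Fin m) (k : Fin m'), Jump p j k → (X j ⟶ Y k))
    {θ : Wr C} {k : SimplexCategoryᵒᵖ} (u : VS X θ k) : VS Y θ k where
  f := p.comp u.f
  g i l h := ((q h.split.choose l h.split.choose_spec.2).app (op (θ.obj i))).app k
    (u.g i h.split.choose h.split.choose_spec.1)

lemma VS.pushW_g {m m' : ℕ} {X : Fin m → SP C} {Y : Fin m' → SP C}
    (p : Fin (m + 1) →o Fin (m' + 1)) (q : ∀ (j : Fin m) (k : Fin m'), Jump p j k → (X j ⟶ Y k))
    {θ : Wr C} {k : SimplexCategoryᵒᵖ} (u : VS X θ k) {i : Fin θ.len} {j : Fin m} {l : Fin m'}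
    (h : Jump u.f i j) (h' : Jump p j l) :
    (VS.pushW p q u).g i l (h.comp h') =
      ((q j l h').app (op (θ.obj i))).app k (u.g i j h) := by
  have hj := (h.comp h').split.choose_spec
  have e : (h.comp h').split.choose = j := hj.2.unique h'
  show ((q _ l hj.2).app (op (θ.obj i))).app k (u.g i _ hj.1) = _
  have aux : ∀ j' (e : j' = j) (h1 : Jump u.f i j') (h2 : Jump p j' l),
      ((q j' l h2).app (op (θ.obj i))).app k (u.g i j' h1) =
        ((q j l h').app (op (θ.obj i))).app k (u.g i j h) := by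
    rintro j' rfl h1 h2; rfl
  exact aux _ e _ _

/-- The map `V[m](X) ⟶ V[m'](Y)` induced by `p : [m] → [m']` and maps `X_j ⟶ Y_k` for
`p(j-1) < k ≤ p(j)`. -/
def V.mapW {m m' : ℕ} {X : Fin m → SP C} {Y : Fin m' → SP C}
    (p : Fin (m + 1) →o Fin (m' + 1)) (q : ∀ (j : Fin m) (k : Fin m'), Jump p j k → (X j ⟶ Y k)) :
    V X ⟶ V Y where
  app θ :=
    { app := fun k => ↾ fun (u : VS X θ.unop k) => u.pushW p q
      naturality := fun k l α => by
        refine ConcreteCategory.hom_ext _ _ fun (u : VS X θ.unop k) => ?_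
        refine VS.ext' rfl fun i r h h' => ?_
        obtain ⟨j, hj, hj'⟩ := Jump.split (f := u.f) (g := p) h
        refine (VS.pushW_g p q (u.mapk α) hj hj').trans ?_
        show _ = ((Y r).obj _).map α ((u.pushW p q).g i r _)
        rw [VS.pushW_g p q u hj hj']
        exact hom_natk (q j r hj') α _ }
  naturality θ θ' φ := by
    refine NatTrans.ext (funext fun k => ?_)
    refine ConcreteCategory.hom_ext _ _ fun (u : VS X θ.unop k) => ?_
    refine VS.ext' rfl fun i r h h' => ?_
    obtain ⟨j, hj, hj'⟩ := Jump.split (f := u.f.comp (Wr.Hom.f φ.unop)) (g := p) h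
    obtain ⟨s, hs, hs'⟩ := Jump.split (f := Wr.Hom.f φ.unop) (g := u.f) hj
    refine (VS.pushW_g p q (u.mapθ φ.unop) hj hj').trans ?_
    refine Eq.trans ?_ (VS.mapθ_g φ.unop (u.pushW p q) hs (hs'.comp hj')).symm
    have e1 := VS.mapθ_g φ.unop u hs hs'
    have e2 := VS.pushW_g p q u hs' hj'
    have e1' : (u.mapθ φ.unop).g i j hj = (u.mapθ φ.unop).g i j (hs.comp hs') := rfl
    rw [e1', e1, e2]
    exact hom_nat (q j r hj') _ _

lemma V.mapW_app {m m' : ℕ} {X : Fin m → SP C} {Y : Fin m' → SP C}
    (p : Fin (m + 1) →o Fin (m' + 1)) (q : ∀ (j : Fin m) (k : Fin m'), Jump p j k → (X j ⟶ Y k))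
    (θ : (Wr C)ᵒᵖ) (k : SimplexCategoryᵒᵖ) (u : VS X θ.unop k) :
    ((V.mapW p q).app θ).app k u = u.pushW p q := rfl

/-- The functor `θ ↦ V[m](G(θ_1), …, G(θ_m))` attached to a functor `G`. -/
def VG (G : C ⥤ SP C) : Wr C ⥤ SP (Wr C) where
  obj θ := V fun i => G.obj (θ.obj i)
  map {θ θ'} φ := V.mapW (X := fun i => G.obj (θ.obj i)) (Y := fun i => G.obj (θ'.obj i))
    (Wr.Hom.f φ) fun j k h => G.map (Wr.Hom.g φ j k h)
  map_id θ := by
    refine NatTrans.ext (funext fun η => NatTrans.ext (funext fun k => ?_))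
    refine ConcreteCategory.hom_ext _ _ fun (u : VS (fun i => G.obj (θ.obj i)) η.unop k) => ?_
    refine VS.ext' rfl fun i j h h' => ?_
    refine (VS.pushW_g (Y := fun i => G.obj (θ.obj i)) (Wr.Hom.f (𝟙 θ))
      (fun j k h => G.map (Wr.Hom.g (𝟙 θ) j k h)) u h' (jump_id.mpr rfl)).trans ?_
    show (((G.map (𝟙 (θ.obj j))).app _).app k _) = _
    rw [G.map_id]
    rfl
  map_comp {θ θ' θ''} φ ψ := by
    refine NatTrans.ext (funext fun η => NatTrans.ext (funext fun k => ?_))
    refine ConcreteCategory.hom_ext _ _ fun (u : VS (fun i => G.obj (θ.obj i)) η.unop k) => ?_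
    refine VS.ext' rfl fun i l h h' => ?_
    obtain ⟨j, hj, hj'⟩ := Jump.split (f := u.f) (g := Wr.Hom.f (φ ≫ ψ)) h
    obtain ⟨s, hs, hs'⟩ := Jump.split (f := Wr.Hom.f φ) (g := Wr.Hom.f ψ) hj'
    refine (VS.pushW_g (Y := fun i => G.obj (θ''.obj i)) (Wr.Hom.f (φ ≫ ψ))
      (fun j k h => G.map (Wr.Hom.g (φ ≫ ψ) j k h)) u hj hj').trans ?_
    refine Eq.trans ?_ (VS.pushW_g (X := fun i => G.obj (θ'.obj i))
      (Y := fun i => G.obj (θ''.obj i)) (Wr.Hom.f ψ) (fun j k h => G.map (Wr.Hom.g ψ j k h))
      (VS.pushW (Y := fun i => G.obj (θ'.obj i)) (Wr.Hom.f φ)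
        (fun j k h => G.map (Wr.Hom.g φ j k h)) u) (hj.comp hs) hs').symm
    rw [VS.pushW_g (Y := fun i => G.obj (θ'.obj i)) (Wr.Hom.f φ)
      (fun j k h => G.map (Wr.Hom.g φ j k h)) u hj hs]
    have e := Wr.comp_g φ ψ hs hs'
    have e' : Wr.Hom.g (φ ≫ ψ) j l hj' = Wr.Hom.g (φ ≫ ψ) j l (hs.comp hs') := rfl
    rw [e', e, G.map_comp]
    rfl

/-- The functoriality of `VG`. -/
def VGmap {G G' : C ⥤ SP C} (τ : G ⟶ G') : VG G ⟶ VG G' where
  app θ := V.map fun i => τ.app (θ.obj i)
  naturality θ θ' φ := by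
    refine NatTrans.ext (funext fun η => NatTrans.ext (funext fun k => ?_))
    refine ConcreteCategory.hom_ext _ _ fun (u : VS (fun i => G.obj (θ.obj i)) η.unop k) => ?_
    refine VS.ext' rfl fun i l h h' => ?_
    obtain ⟨j, hj, hj'⟩ := Jump.split (f := u.f) (g := Wr.Hom.f φ) h
    refine (congrArg (((τ.app (θ'.obj l)).app (op (η.unop.obj i))).app k)
      (VS.pushW_g (Y := fun i => G.obj (θ'.obj i)) (Wr.Hom.f φ)
        (fun j k h => G.map (Wr.Hom.g φ j k h)) u hj hj')).trans ?_
    refine Eq.trans ?_ (VS.pushW_g (Y := fun i => G'.obj (θ'.obj i)) (Wr.Hom.f φ)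
      (fun j k h => G'.map (Wr.Hom.g φ j k h)) (u.push fun i => τ.app (θ.obj i)) hj hj').symm
    exact ConcreteCategory.congr_hom (NatTrans.congr_app (NatTrans.congr_app
      (τ.naturality (Wr.Hom.g φ j l hj')) (op (η.unop.obj i))) k) _

/-- The isomorphism `V[m](h_{θ_1}, …, h_{θ_m}) ⟶ h_θ`. -/
def VGyo (C : Type) [SmallCategory C] : VG (yo C) ⟶ yo (Wr C) where
  app θ :=
    { app := fun η =>
        { app := fun k => ↾ fun (u : VS (fun i => rep (θ.obj i)) η.unop k) =>
            (({ f := u.f, g := fun i j h => u.g i j h } : Wr.Hom η.unop θ) : η.unop ⟶ θ)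
          naturality := fun k l α => rfl }
      naturality := fun η η' f => by
        refine NatTrans.ext (funext fun k => ?_)
        refine ConcreteCategory.hom_ext _ _ fun (u : VS (fun i => rep (θ.obj i)) η.unop k) => ?_
        refine Wr.hom_ext' rfl fun i l h h' => ?_
        obtain ⟨j, hj, hj'⟩ := Jump.split (f := Wr.Hom.f f.unop) (g := u.f) h
        refine (VS.mapθ_g f.unop u hj hj').trans ?_
        exact (Wr.comp_g (X := η'.unop) (Y := η.unop) (Z := θ) f.unop
          ({ f := u.f, g := fun i j h => u.g i j h } : Wr.Hom η.unop θ) hj hj').symm }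
  naturality θ θ' φ := by
    refine NatTrans.ext (funext fun η => NatTrans.ext (funext fun k => ?_))
    refine ConcreteCategory.hom_ext _ _ fun (u : VS (fun i => rep (θ.obj i)) η.unop k) => ?_
    refine Wr.hom_ext' rfl fun i l h h' => ?_
    obtain ⟨j, hj, hj'⟩ := Jump.split (f := u.f) (g := Wr.Hom.f φ) h
    refine (VS.pushW_g (Y := fun i => rep (θ'.obj i)) (Wr.Hom.f φ)
      (fun j k h => repMap (Wr.Hom.g φ j k h)) u hj hj').trans ?_
    exact (Wr.comp_g (X := η.unop) (Y := θ) (Z := θ')
      ({ f := u.f, g := fun i j h => u.g i j h } : Wr.Hom η.unop θ) φ hj hj').symm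

/-- The frame `θ ↦ (m ↦ V[r](T(θ_1)_m, …, T(θ_r)_m))`. -/
def VFr (T : Fr C) : Fr (Wr C) where
  obj θ :=
    { obj := fun m => V fun i => (T.obj (θ.obj i)).obj m
      map := fun α => V.map fun i => (T.obj (θ.obj i)).map α
      map_id := fun m => by
        refine NatTrans.ext (funext fun η => NatTrans.ext (funext fun k => ?_))
        refine ConcreteCategory.hom_ext _ _ fun u => ?_
        exact VS.ext' rfl fun i j h h' => cos_id (T.obj (θ.obj j)) _
      map_comp := fun α β => by
        refine NatTrans.ext (funext fun η => NatTrans.ext (funext fun k => ?_))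
        refine ConcreteCategory.hom_ext _ _ fun u => ?_
        exact VS.ext' rfl fun i j h h' => cos_comp (T.obj (θ.obj j)) α β _ }
  map {θ θ'} φ :=
    { app := fun m => (VG (T ⋙ (evaluation _ _).obj m)).map φ
      naturality := fun m n α => ((VGmap (Functor.whiskerLeft T
        ((evaluation SimplexCategory (SP C)).map α))).naturality φ).symm }
  map_id θ := by
    refine NatTrans.ext (funext fun m => ?_)
    exact (VG (T ⋙ (evaluation _ _).obj m)).map_id θ
  map_comp φ ψ := by
    refine NatTrans.ext (funext fun m => ?_)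
    exact (VG (T ⋙ (evaluation _ _).obj m)).map_comp φ ψ

/-- The augmentation of `VFr T`. -/
def VFrAug {T : Fr C} (τ : T ⟶ yoFr C) : VFr T ⟶ yoFr (Wr C) where
  app θ :=
    { app := fun m => (V.map fun i => (τ.app (θ.obj i)).app m) ≫ (VGyo C).app θ
      naturality := fun m n α => by
        refine NatTrans.ext (funext fun η => NatTrans.ext (funext fun k => ?_))
        refine ConcreteCategory.hom_ext _ _ fun u => ?_
        refine Wr.hom_ext' rfl fun i j h h' => ?_
        exact ConcreteCategory.congr_hom (NatTrans.congr_app (NatTrans.congr_app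
          ((τ.app (θ.obj j)).naturality α) (op (η.unop.obj i))) k) _ }
  naturality θ θ' φ := by
    refine NatTrans.ext (funext fun m => ?_)
    have e1 := (VGmap (G := T ⋙ (evaluation _ _).obj m) (G' := yo C)
      { app := fun c => (τ.app c).app m
        naturality := fun c c' f => congrArg (fun t => NatTrans.app t m) (τ.naturality f) }).naturality φ
    have e2 := (VGyo C).naturality φ
    refine (Category.assoc _ _ _).symm.trans ?_
    refine (congrArg (· ≫ (VGyo C).app θ') e1).trans ?_
    refine (Category.assoc _ _ _).trans ?_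
    refine (congrArg (_ ≫ ·) e2).trans ?_
    exact (Category.assoc _ _ _).symm

end Wreath

/-- The frame of the completion at level `j`. -/
def Tfr : (n _j : ℕ) → Fr (Th n)
  | 0, _ => yoFr (Th 0)
  | (n + 1), 0 => T0 (Th n)
  | (n + 1), (j + 1) => VFr (Tfr n j)

/-- The augmentation of the frame `Tfr n j`. -/
def TfrAug : (n j : ℕ) → (Tfr n j ⟶ yoFr (Th n))
  | 0, _ => 𝟙 (yoFr (Th 0))
  | (n + 1), 0 => T0aug (Th n)
  | (n + 1), (j + 1) => VFrAug (TfrAug n j)

section Bar

variable {A : Type} [SmallCategory A]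

/-- A `k`-simplex of the bar construction at `b`: `b ⟶ b_0 ⟶ … ⟶ b_k ⟶ a`. -/
structure BrS (a b : A) (k : SimplexCategory) : Type where
  σ : Chain A k
  u : b ⟶ σ.obj 0
  v : σ.obj (Fin.last _) ⟶ a

/-- The bar construction `B_a`, a resolution of `h_a`. -/
def Bro (a : A) : SP A where
  obj b :=
    { obj := fun k => BrS a b.unop k.unop
      map := fun {k l} α => ↾ fun w => ⟨w.σ.res α.unop, w.u ≫ w.σ.zeroTo α.unop,
        w.σ.map _ _ (Fin.le_last _) ≫ w.v⟩
      map_id := fun k => by
        ext w
        obtain ⟨σ, u, v⟩ := w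
        exact congrArg₂ (BrS.mk σ) ((congrArg (u ≫ ·) (σ.map_id 0)).trans (Category.comp_id u))
          ((congrArg (· ≫ v) (σ.map_id _)).trans (Category.id_comp v))
      map_comp := fun {k l m} α β => by
        ext w
        obtain ⟨σ, u, v⟩ := w
        refine congrArg₂ (BrS.mk (σ.res (β.unop ≫ α.unop))) ?_ ?_
        · exact ((congrArg (u ≫ ·) (σ.map_comp _ _ _ _ _).symm).trans
            (Category.assoc _ _ _).symm)
        · refine (congrArg (· ≫ v) (σ.map_comp _ (α.unop.toOrderHom (Fin.last _)) (Fin.last _)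
            (α.unop.toOrderHom.monotone (Fin.le_last _)) (Fin.le_last _)).symm).trans ?_
          exact Category.assoc _ _ _ }
  map f :=
    { app := fun k => ↾ fun w => ⟨w.σ, f.unop ≫ w.u, w.v⟩
      naturality := fun k l α => by
        ext w
        exact congrArg (fun t => BrS.mk (w.σ.res α.unop) t _)
          (Category.assoc f.unop w.u (w.σ.zeroTo α.unop)).symm }
  map_id b := by
    ext k w
    exact congrArg (fun t => BrS.mk w.σ t w.v) (Category.id_comp _)
  map_comp f g := by
    ext k w
    exact congrArg (fun t => BrS.mk w.σ t w.v) (Category.assoc _ _ _)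

/-- The bar frame. -/
def Br (A : Type) [SmallCategory A] : Fr A where
  obj a := cc (Bro a)
  map f := (Functor.const SimplexCategory).map
    { app := fun b =>
        { app := fun k => ↾ fun w => ⟨w.σ, w.u, w.v ≫ f⟩
          naturality := fun k l α => by
            refine ConcreteCategory.hom_ext _ _ fun w => ?_
            exact congrArg (BrS.mk (Chain.res (BrS.σ w) α.unop) _)
              (Category.assoc (Chain.map (BrS.σ w) _ _ (Fin.le_last _)) (BrS.v w) f) }
      naturality := fun _ _ _ => rfl }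
  map_id a := by
    refine NatTrans.ext (funext fun m => NatTrans.ext (funext fun b =>
      NatTrans.ext (funext fun k => ?_)))
    refine ConcreteCategory.hom_ext _ _ fun w => ?_
    exact congrArg (BrS.mk (BrS.σ w) (BrS.u w)) (Category.comp_id _)
  map_comp f g := by
    refine NatTrans.ext (funext fun m => NatTrans.ext (funext fun b =>
      NatTrans.ext (funext fun k => ?_)))
    refine ConcreteCategory.hom_ext _ _ fun w => ?_
    exact congrArg (BrS.mk (BrS.σ w) (BrS.u w)) (Category.assoc _ _ _).symm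

/-- The augmentation `B_a ⟶ h_a`. -/
def BrAug (A : Type) [SmallCategory A] : Br A ⟶ yoFr A where
  app a := (Functor.const SimplexCategory).map
    { app := fun b =>
        { app := fun k => ↾ fun (w : BrS a b.unop k.unop) =>
            ((w.u ≫ w.σ.map 0 (Fin.last _) (Fin.zero_le _)) ≫ w.v : b.unop ⟶ a)
          naturality := fun k l α => by
            refine ConcreteCategory.hom_ext _ _ fun (w : BrS a b.unop k.unop) => ?_
            obtain ⟨σ, u, v⟩ := w
            show ((u ≫ σ.map 0 (α.unop.toOrderHom 0) (Fin.zero_le _)) ≫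
                σ.map (α.unop.toOrderHom 0) (α.unop.toOrderHom (Fin.last _))
                  (α.unop.toOrderHom.monotone (Fin.zero_le _))) ≫
                σ.map (α.unop.toOrderHom (Fin.last _)) (Fin.last _) (Fin.le_last _) ≫ v =
              (u ≫ σ.map 0 (Fin.last _) (Fin.zero_le _)) ≫ v
            rw [← σ.map_comp 0 (α.unop.toOrderHom 0) (Fin.last _) (Fin.zero_le _) (Fin.le_last _),
              ← σ.map_comp (α.unop.toOrderHom 0) (α.unop.toOrderHom (Fin.last _)) (Fin.last _)
                (α.unop.toOrderHom.monotone (Fin.zero_le _)) (Fin.le_last _)]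
            simp only [Category.assoc] }
      naturality := fun b b' f => by
        refine NatTrans.ext (funext fun k => ?_)
        refine ConcreteCategory.hom_ext _ _ fun (w : BrS a b.unop k.unop) => ?_
        obtain ⟨σ, u, v⟩ := w
        show ((f.unop ≫ u) ≫ σ.map 0 (Fin.last _) (Fin.zero_le _)) ≫ v =
          f.unop ≫ ((u ≫ σ.map 0 (Fin.last _) (Fin.zero_le _)) ≫ v)
        simp only [Category.assoc] }
  naturality a a' f := by
    refine NatTrans.ext (funext fun m => NatTrans.ext (funext fun b =>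
      NatTrans.ext (funext fun k => ?_)))
    refine ConcreteCategory.hom_ext _ _ fun w => ?_
    exact (Category.assoc _ _ _).symm

/-- The injectively fibrant replacement functor. -/
def RR (A : Type) [SmallCategory A] : SFun A := SFun.ofFrame (Br A) (BrAug A)

end Bar

/-- The completion at level `j`. -/
def KJ (n j : ℕ) : SFun (Th n) := SFun.ofFrame (Tfr n j) (TfrAug n j)

/-- The completion functor: `RR`, followed by `RR ∘ KJ n j` for `j = n-1, …, n-d`. -/
def Cp (n : ℕ) : ℕ → SFun (Th n)
  | 0 => RR (Th n)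
  | (d + 1) => ((Cp n d).comp (KJ n (n - 1 - d))).comp (RR (Th n))

end

end FL
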