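import Pool.Agent.Helper58.FL2.FinalOf
import Pool.Agent.Helper25.FL2.TrSg
import Pool.Agent.Helper37.FL2.GoodV
import Pool.Agent.Helper41.FL2.C6Core
import Pool.Agent.Helper43.FL2.Good
import Pool.Agent.Helper55.FL2.GPe
import Pool.Agent.Helper55.FL2.TruncD
import Pool.Agent.Helper59.FL2.ComplStep
import Pool.Agent.Helper81.FL2.Fib
import Pool.Agent.Helper85.FL2.C4
import Pool.Agent.Helper86.FL2.KGood
import Pool.Agent.Helper91.FL2.Comp0

/-! # F10: the theorem of Ayala and Francis and the conjecture -/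

open CategoryTheory MonoidalCategory Opposite

set_option autoImplicit false

namespace Pool.Agent.Helper58.FL2F

open _root_.FL

section

variable {C : Type} [SmallCategory C] {X : SP (Wr C)}

theorem HmK0_objHoEq (hX : InjFib X) (hS : SpLoc X) (x y : Vt X) :
    ObjHoEq (HmMap ((SFun.ofFrame (T0 C) (T0aug C)).η X) x y) := by
  refine Helper85FL2.HmK0_objHoEq_of hX ?_ (fun c hF => ?_) x y
  · intro c
    exact (Pool.Agent.Helper86.FL2.Kf_good hX (Pool.Agent.Helper43.FL2.goodFr_T0 hX hS)).1.2 c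
  · exact Pool.Agent.Helper55.FL2.relMap_hoEq hX (vert (seg c))
      (fun m => Pool.Agent.Helper43.FL2.E0rel_seg hX hS c m 0)
      (Pool.Agent.Helper81.FL2.Yc_kan hX (Pool.Agent.Helper43.FL2.ext_T0 hX hS (seg c))) hF

end

/-- The statement of C1b. -/
abbrev TfrGood : Prop := ∀ {n : ℕ} (j : ℕ) {X : SP (Th (n + 1))} (_ : Sg (n + 1) X),
    GoodFr (C := Th n) X (Tfr (n + 1) j)

theorem tfrGood : TfrGood := fun j _ hX => Pool.Agent.Helper37.FL2.goodFr_Tfr j hX

theorem stepDep (h : TfrGood) : Helper41FL2.StepDep where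
  ext_cc := fun X P => Pool.Agent.Helper43.FL2.ext_cc X P
  goodFr_Tfr := h
  Kf_good := fun hX _ hT => Pool.Agent.Helper86.FL2.Kf_good hX hT
  HmK0_objHoEq := fun hX hS x y => HmK0_objHoEq hX hS x y
  K0_complete := fun hX hS => Pool.Agent.Helper91.FL2.K0_complete hX hS

theorem stepHyp (h : TfrGood) (n : ℕ) : Helper59.FL2.StepHyp n := fun _ _ hX =>
  Helper41FL2.KJ_step_of (stepDep h) hX

theorem kDeps (h : TfrGood) (n : ℕ) : KDeps n where
  Cp_isCat := fun _ hS => Helper59.FL2.Cp_isCat_step (stepHyp h n) hS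
  sg_tr := fun hX i => Pool.Agent.Helper25.FL2.sg_tr hX i
  tr_down := fun hX hY _ e e' he hE => Pool.Agent.Helper55.FL2.tr_down hX hY e e' he hE
  tr_up := fun hX hD _ hT e e' he hE => Pool.Agent.Helper55.FL2.tr_up hX hD hT e e' he hE
  ES_loc := fun hX hY hZ _ hf => Helper59.FL2.ES_loc_step (stepHyp h n) hX hY hZ hf

theorem knownTheorem' (n : ℕ) : KnownTheorem n := knownTheorem (kDeps tfrGood n)

theorem conjecture' (n : ℕ) : Conjecture n := conjecture (kDeps tfrGood n)

theorem knownTheorem_all (n : ℕ) : KnownTheorem n := knownTheorem' n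

theorem conjecture_all (n : ℕ) : Conjecture n := conjecture' n

end Pool.Agent.Helper58.FL2F
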