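import Pool.Agent.Helper58.FL2.Pred

/-!
# The nerve of the chaotic category on a set
-/

open CategoryTheory MonoidalCategory Opposite

set_option autoImplicit false

namespace FL

/-- The nerve of the chaotic category on `S`: its `m`-simplices are the words `(s_0, …, s_m)`. -/
@[simps]
def EN (S : Type) : SSet.{0} where
  obj m := Fin (m.unop.len + 1) → S
  map α := ↾ fun w i => w (α.unop.toOrderHom i)
  map_id _ := rfl
  map_comp _ _ := rfl

/-- The subcomplex of words in the letters of `U`. -/
@[simps]
def ENsub {S : Type} (U : Set S) : (EN S).Subcomplex where
  obj m := { w | ∀ i, w i ∈ U }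
  map := by
    intro m n α w h i
    exact h _

end FL
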