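import Pool.Agent.Helper58.FL2.Loc

/-!
# Cosimplicial simplicial presheaves, frames, simplicial endofunctors
-/

open CategoryTheory MonoidalCategory Simplicial Opposite

set_option autoImplicit false

namespace FL

section

variable {A : Type} [SmallCategory A]

/-- Elementwise functoriality of a cosimplicial object. -/
lemma cos_comp (F : SimplexCategory ⥤ SP A) {l m n : SimplexCategory} (α : l ⟶ m) (β : m ⟶ n)
    {a : Aᵒᵖ} {k : SimplexCategoryᵒᵖ} (x : ((F.obj l).obj a).obj k) :
    ((F.map (α ≫ β)).app a).app k x = ((F.map β).app a).app k (((F.map α).app a).app k x) := by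
  rw [F.map_comp]; rfl

lemma cos_id (F : SimplexCategory ⥤ SP A) {l : SimplexCategory}
    {a : Aᵒᵖ} {k : SimplexCategoryᵒᵖ} (x : ((F.obj l).obj a).obj k) :
    ((F.map (𝟙 l)).app a).app k x = x := by
  rw [F.map_id]; rfl

/-- The simplicial set `m ↦ Hom(F(m) × Δ[m], X)` attached to a cosimplicial object `F`. -/
def Yc (F : SimplexCategory ⥤ SP A) (X : SP A) : SSet.{0} where
  obj m := MpS (F.obj m.unop) X m.unop
  map {m n} α := ↾ fun φ => (MpS.ofHom n.unop (F.map α.unop)).comp (MpS.res α.unop φ)
  map_id m := by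
    ext φ a k s x
    exact (congrArg (MpS.app φ a k (s ≫ 𝟙 _)) (cos_id F x)).trans
      (congrArg (fun t => MpS.app φ a k t x) (Category.comp_id s))
  map_comp {m n r} α β := by
    ext φ a k s x
    exact (congrArg (MpS.app φ a k (s ≫ (β.unop ≫ α.unop))) (cos_comp F β.unop α.unop x)).trans
      (congrArg (fun t => MpS.app φ a k t _) (Category.assoc s β.unop α.unop).symm)

/-- The map `Yc G X ⟶ Yc F X` induced by `u : F ⟶ G`. -/
def Yc.pre {F G : SimplexCategory ⥤ SP A} (u : F ⟶ G) (X : SP A) : Yc G X ⟶ Yc F X where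
  app m := ↾ fun φ => (MpS.ofHom m.unop (u.app m.unop)).comp φ
  naturality m n α := by
    ext φ
    refine MpS.ext ?_
    funext a k s x
    refine congrArg (MpS.app φ a k (s ≫ α.unop)) ?_
    exact (ConcreteCategory.congr_hom (NatTrans.congr_app (NatTrans.congr_app
      (u.naturality α.unop) a) k) x).symm

/-- The map `Yc F X ⟶ Yc F Y` induced by `f : X ⟶ Y`. -/
def Yc.post (F : SimplexCategory ⥤ SP A) {X Y : SP A} (f : X ⟶ Y) : Yc F X ⟶ Yc F Y where
  app m := ↾ fun φ => MpS.comp φ (MpS.ofHom m.unop f)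
  naturality m n α := by
    ext φ
    rfl

/-- The constant cosimplicial object. -/
abbrev cc (P : SP A) : SimplexCategory ⥤ SP A := (Functor.const SimplexCategory).obj P

/-- The element `x` of the cosimplicial object `F` is supported on the set of vertices `U`. -/
def Supp (F : SimplexCategory ⥤ SP A) {N : SimplexCategory} (U : Finset (Fin (N.len + 1)))
    {a : Aᵒᵖ} {k : SimplexCategoryᵒᵖ} (x : ((F.obj N).obj a).obj k) : Prop :=
  ∃ (m : SimplexCategory) (α : m ⟶ N) (y : ((F.obj m).obj a).obj k),
    (∀ i, α.toOrderHom i ∈ U) ∧ ((F.map α).app a).app k y = x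

/-- The face `F_U ⊆ F_N` of a cosimplicial object. -/
def fface (F : SimplexCategory ⥤ SP A) {N : SimplexCategory} (U : Finset (Fin (N.len + 1))) :
    Sb (F.obj N) where
  mem a k := { x | Supp F U x }
  mapA := by
    rintro a b f k _ ⟨m, α, y, h, rfl⟩
    exact ⟨m, α, ((F.obj m).map f).app k y, h, hom_nat (F.map α) f y⟩
  mapk := by
    rintro a k l g _ ⟨m, α, y, h, rfl⟩
    exact ⟨m, α, ((F.obj m).obj a).map g y, h, hom_natk (F.map α) g y⟩

/-- The face `F_U ⊗ Δ^U ⊆ F_N ⊗ Δ[N]`. -/
def cface (F : SimplexCategory ⥤ SP A) {N : SimplexCategory} (U : Finset (Fin (N.len + 1))) :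
    Sb (tn (F.obj N) (SSet.stdSimplex.obj N)) where
  mem a k := { z | Supp F U z.1 ∧ ∀ i, (SSet.stdSimplex.objEquiv z.2).toOrderHom i ∈ U }
  mapA := by
    rintro a b f k ⟨x, s⟩ ⟨hx, hs⟩
    exact ⟨(fface F U).mapA f k x hx, hs⟩
  mapk := by
    rintro a k l g ⟨x, s⟩ ⟨hx, hs⟩
    exact ⟨(fface F U).mapk a g x hx, fun i => hs _⟩

/-- The gluing condition for the cosimplicial object `F`, relative to `X`: the maps
`F_S ∪ F_{S'} ⟶ F_{S ∪ S'}` are local for all `S`, `S'` with exactly one common element. -/
def Ext (X : SP A) (F : SimplexCategory ⥤ SP A) : Prop :=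
  ∀ (N : SimplexCategory) (S S' : Finset (Fin (N.len + 1))) (v : Fin (N.len + 1)),
    S ∩ S' = {v} → LocT X (fface F S ⊔ fface F S') (fface F (S ∪ S'))

/-- A frame on `A`: a functor which attaches to every object of `A` a cosimplicial object. -/
abbrev Fr (A : Type) [SmallCategory A] : Type 1 := A ⥤ (SimplexCategory ⥤ SP A)

/-- The constant frame `a ↦ h_a`. -/
abbrev yoFr (A : Type) [SmallCategory A] : Fr A := yo A ⋙ Functor.const SimplexCategory

/-- The simplicial presheaf `a ↦ (m ↦ Hom(T(a)(m) × Δ[m], X))` attached to a frame. -/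
def Kf (T : Fr A) (X : SP A) : SP A where
  obj a := Yc (T.obj a.unop) X
  map f := Yc.pre (T.map f.unop) X
  map_id a := by
    ext m φ
    refine MpS.ext ?_
    funext b k s x
    refine congrArg (MpS.app φ b k s) ?_
    show (((T.map (𝟙 a.unop)).app m.unop).app b).app k x = x
    rw [T.map_id]
    rfl
  map_comp f g := by
    ext m φ
    refine MpS.ext ?_
    funext b k s x
    refine congrArg (MpS.app φ b k s) ?_
    show (((T.map (g.unop ≫ f.unop)).app m.unop).app b).app k x = _
    rw [T.map_comp]
    rfl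

end

/-- A simplicial endofunctor `K` of the category of simplicial presheaves on `A`, with a natural
transformation `X ⟶ K X`. -/
structure SFun (A : Type) [SmallCategory A] : Type 1 where
  obj : SP A → SP A
  mapS : ∀ {X Y : SP A} {m : SimplexCategory}, MpS X Y m → MpS (obj X) (obj Y) m
  mapS_res : ∀ {X Y : SP A} {m n : SimplexCategory} (α : n ⟶ m) (φ : MpS X Y m),
    mapS (φ.res α) = (mapS φ).res α
  mapS_id : ∀ (X : SP A) (m : SimplexCategory),
    mapS (MpS.ofHom m (𝟙 X)) = MpS.ofHom m (𝟙 (obj X))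
  mapS_comp : ∀ {X Y Z : SP A} {m : SimplexCategory} (φ : MpS X Y m) (ψ : MpS Y Z m),
    mapS (φ.comp ψ) = (mapS φ).comp (mapS ψ)
  map : ∀ {X Y : SP A}, (X ⟶ Y) → (obj X ⟶ obj Y)
  mapS_ofHom : ∀ {X Y : SP A} (m : SimplexCategory) (f : X ⟶ Y),
    mapS (MpS.ofHom m f) = MpS.ofHom m (map f)
  η : ∀ X : SP A, X ⟶ obj X
  η_nat : ∀ {X Y : SP A} {m : SimplexCategory} (φ : MpS X Y m),
    φ.comp (MpS.ofHom m (η Y)) = (MpS.ofHom m (η X)).comp (mapS φ)

namespace SFun

variable {A : Type} [SmallCategory A]

/-- A simplicial presheaf map is determined by its constant simplices. -/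
lemma ofHom_injective {X Y : SP A} {f g : X ⟶ Y}
    (h : ∀ m, MpS.ofHom m f = MpS.ofHom m g) : f = g := by
  ext a k x
  exact congrFun (congrFun (congrFun (congrFun (congrArg MpS.app (h k.unop)) a) k) (𝟙 _)) x

lemma map_id (K : SFun A) (X : SP A) : K.map (𝟙 X) = 𝟙 (K.obj X) :=
  ofHom_injective fun m => by rw [← K.mapS_ofHom, K.mapS_id]

lemma map_comp (K : SFun A) {X Y Z : SP A} (f : X ⟶ Y) (g : Y ⟶ Z) :
    K.map (f ≫ g) = K.map f ≫ K.map g :=
  ofHom_injective fun m => by
    rw [← K.mapS_ofHom]
    show K.mapS ((MpS.ofHom m f).comp (MpS.ofHom m g)) = _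
    rw [K.mapS_comp, K.mapS_ofHom, K.mapS_ofHom]
    rfl

lemma η_naturality (K : SFun A) {X Y : SP A} (f : X ⟶ Y) : f ≫ K.η Y = K.η X ≫ K.map f :=
  ofHom_injective fun m => by
    have := K.η_nat (MpS.ofHom m f)
    rw [K.mapS_ofHom] at this
    exact this

/-- The identity. -/
def one (A : Type) [SmallCategory A] : SFun A where
  obj X := X
  mapS φ := φ
  mapS_res _ _ := rfl
  mapS_id _ _ := rfl
  mapS_comp _ _ := rfl
  map f := f
  mapS_ofHom _ _ := rfl
  η X := 𝟙 X
  η_nat _ := rfl

/-- The composite `X ↦ L (K X)`. -/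
def comp (K L : SFun A) : SFun A where
  obj X := L.obj (K.obj X)
  mapS φ := L.mapS (K.mapS φ)
  mapS_res α φ := by rw [K.mapS_res, L.mapS_res]
  mapS_id X m := by rw [K.mapS_id, L.mapS_id]
  mapS_comp φ ψ := by rw [K.mapS_comp, L.mapS_comp]
  map f := L.map (K.map f)
  mapS_ofHom m f := by rw [K.mapS_ofHom, L.mapS_ofHom]
  η X := K.η X ≫ L.η (K.obj X)
  η_nat {X Y m} φ := by
    have h1 := K.η_nat φ
    have h2 := L.η_nat (K.mapS φ)
    show (φ.comp (MpS.ofHom m (K.η Y))).comp (MpS.ofHom m (L.η (K.obj Y))) =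
      (MpS.ofHom m (K.η X)).comp ((MpS.ofHom m (L.η (K.obj X))).comp (L.mapS (K.mapS φ)))
    rw [h1, ← h2]
    rfl

/-- The functor underlying a simplicial endofunctor. -/
@[simps]
def toFunctor (K : SFun A) : SP A ⥤ SP A where
  obj := K.obj
  map := K.map
  map_id := K.map_id
  map_comp := K.map_comp

/-- The simplicial endofunctor `Kf T` attached to a frame `T` with an augmentation
`T ⟶ (a ↦ h_a)`. -/
def ofFrame (T : Fr A) (τ : T ⟶ yoFr A) : SFun A where
  obj X := Kf T X
  mapS {X Y m} φ :=
    { app := fun a k s ψ => MpS.comp ψ (MpS.res s φ)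
      nat_left := fun _ _ _ _ => rfl
      nat_right := fun a k l g s x => rfl }
  mapS_res α φ := rfl
  mapS_id X m := rfl
  mapS_comp φ ψ := rfl
  map f :=
    { app := fun a => Yc.post (T.obj a.unop) f
      naturality := fun _ _ _ => rfl }
  mapS_ofHom m f := rfl
  η X :=
    { app := fun a =>
        { app := fun k => ↾ fun (x : (X.obj a).obj k) =>
            (MpS.ofHom k.unop ((τ.app a.unop).app k.unop)).comp (yoS (a := a.unop) x)
          naturality := fun k l α => by
            ext x
            refine MpS.ext ?_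
            funext b m s u
            have e := ConcreteCategory.congr_hom (NatTrans.congr_app (NatTrans.congr_app
              ((τ.app a.unop).naturality α.unop) b) m) u
            show (X.map (Quiver.Hom.op ((((τ.app a.unop).app l.unop).app b).app m u))).app m
                ((X.obj a).map s.op ((X.obj a).map α x)) =
              (X.map (Quiver.Hom.op ((((τ.app a.unop).app k.unop).app b).app m
                ((((T.obj a.unop).map α.unop).app b).app m u)))).app m
                ((X.obj a).map (s ≫ α.unop).op x)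
            rw [← sset_comp]
            refine congrArg (fun t => (X.map (Quiver.Hom.op t)).app m _) ?_
            exact e.symm }
      naturality := fun a b f => by
        ext k x
        refine MpS.ext ?_
        funext c m s u
        have e := ConcreteCategory.congr_hom (NatTrans.congr_app (NatTrans.congr_app
          (NatTrans.congr_app (τ.naturality f.unop) k.unop) c) m) u
        show (X.map (Quiver.Hom.op ((((τ.app b.unop).app k.unop).app c).app m u))).app m
            ((X.obj b).map s.op ((X.map f).app k x)) =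
          (X.map (Quiver.Hom.op ((((τ.app a.unop).app k.unop).app c).app m
            ((((T.map f.unop).app k.unop).app c).app m u)))).app m
            ((X.obj a).map s.op x)
        rw [← sp_nat, ← sp_comp]
        refine congrArg (fun t => (X.map t).app m _) ?_
        exact congrArg Quiver.Hom.op e.symm }
  η_nat {X Y m} φ := by
    refine MpS.ext ?_
    funext a k s x
    refine MpS.ext ?_
    funext b l t u
    show (Y.map _).app l ((Y.obj a).map t.op (φ.app a k s x)) = φ.app b l (t ≫ s) ((X.map _).app l _)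
    refine Eq.trans ?_ (φ.nat_left _ l (t ≫ s) _).symm
    refine congrArg ((Y.map _).app l) ?_
    exact (φ.nat_right a t.op s x).symm

end SFun

end FL
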