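import Pool.Agent.Helper58.FL2.Comb

/-!
# Further constructions: spines and horns in a lattice, ends, mapping objects of flagged categories
-/

open CategoryTheory MonoidalCategory Opposite

set_option autoImplicit false

namespace FL

noncomputable section

section Lat

variable {L : Type} [DistribLattice L] [OrderBot L] {N : ℕ} (face : Finset (Fin (N + 1)) → L)

/-- The spine of the set of vertices `U`: the union of the faces `{a, b}` for `a < b` consecutive
elements of `U`, and of all vertices of `U`. -/
def spineL (U : Finset (Fin (N + 1))) : L :=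
  U.sup (fun a => face {a}) ⊔
    ((U ×ˢ U).filter fun p => p.1 < p.2 ∧ ∀ c ∈ U, ¬ (p.1 < c ∧ c < p.2)).sup
      fun p => face {p.1, p.2}

/-- The union of the faces of `U` opposite to the elements of `T`. -/
def hornL (U T : Finset (Fin (N + 1))) : L := T.sup fun i => face (U.erase i)

end Lat

section

variable {C : Type} [SmallCategory C]

/-- The sub-presheaf of `V[m](B)` attached to a family of vertex sets. -/
def vK {m : ℕ} (B : Fin m → SP C) (K : LowerSet (Finset (Fin (m + 1)))) : Sb (V B) where
  mem θ k := fun (u : VS B θ.unop k) => Finset.univ.image u.f ∈ K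
  mapA := by
    rintro θ θ' φ k u h
    refine K.lower ?_ h
    intro a ha
    obtain ⟨i, _, rfl⟩ := Finset.mem_image.mp ha
    exact Finset.mem_image.mpr ⟨_, Finset.mem_univ _, rfl⟩
  mapk := by
    rintro θ k l α u h
    exact h

/-- The vertex sets which do not cross the gap `i`. -/
def NC {m : ℕ} (i : Fin m) : LowerSet (Finset (Fin (m + 1))) where
  carrier := fun U => (∀ a ∈ U, a ≤ i.castSucc) ∨ ∀ a ∈ U, i.succ ≤ a
  lower' := by
    intro U U' h hU
    exact hU.elim (fun hU => Or.inl fun a ha => hU a (h ha)) fun hU => Or.inr fun a ha => hU a (h ha)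

/-- The simplex `(id, b)` of `V[1](B)` at `[1](c)`. -/
abbrev vsOf (B : SP C) {c : C} {k : SimplexCategoryᵒᵖ} (b : (B.obj (op c)).obj k) :
    VS (fun _ : Fin 1 => B) (seg c) k :=
  { f := OrderHom.id, g := fun _ _ _ => b }

/-- The constant simplices of `V[1](B)`. -/
abbrev vsEnd (B : SP C) (i : Fin 2) (θ : Wr C) (k : SimplexCategoryᵒᵖ) :
    VS (fun _ : Fin 1 => B) θ k :=
  { f := ⟨fun _ => i, fun _ _ _ => le_refl _⟩
    g := fun p j h => by
      exfalso
      have := h.1.trans_lt ((Fin.castSucc_lt_succ).trans_le h.2)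
      exact lt_irrefl _ this }

/-- The map `Map(V[1](B), X) ⟶ X([0]) × X([0])` given by the two ends of `V[1](B)`. -/
def endsV (B : SP C) (X : SP (Wr C)) :
    Mp (V1 B) X ⟶ X.obj (op Wr.pt) ⊗ X.obj (op Wr.pt) where
  app m := ↾ fun (φ : MpS (V1 B) X m.unop) =>
    (φ.app (op Wr.pt) m (𝟙 _) (vsEnd B 0 Wr.pt m), φ.app (op Wr.pt) m (𝟙 _) (vsEnd B 1 Wr.pt m))
  naturality m m' α := by
    refine ConcreteCategory.hom_ext _ _ fun (φ : MpS (V1 B) X m.unop) => ?_
    have key : ∀ i : Fin 2, φ.app (op Wr.pt) m' (𝟙 _ ≫ α.unop) (vsEnd B i Wr.pt m') =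
        (X.obj (op Wr.pt)).map α (φ.app (op Wr.pt) m (𝟙 _) (vsEnd B i Wr.pt m)) := by
      intro i
      refine Eq.trans ?_ (φ.nat_right (op Wr.pt) α (𝟙 _) (vsEnd B i Wr.pt m))
      rw [Category.comp_id, Category.id_comp]
      refine congrArg (φ.app (op Wr.pt) m' α.unop) ?_
      exact VS.ext' rfl fun p => p.elim0
    exact Prod.ext (key 0) (key 1)

/-- The underlying simplex of a simplex of a mapping presheaf. -/
def Hm.val {X : SP (Wr C)} {x y : Vt X} {c : Cᵒᵖ} {k : SimplexCategoryᵒᵖ}
    (z : ((Hm X x y).obj c).obj k) : (X.obj (op (seg c.unop))).obj k := z.1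

/-- The map `Map(E, X) ⟶ X([0]) × X([0])` given by the two vertices of the nerve `E` of the
free-standing isomorphism. -/
def evE (X : SP (Wr C)) :
    Mp (disc (isoPsh C)) X ⟶ X.obj (op Wr.pt) ⊗ X.obj (op Wr.pt) where
  app m := ↾ fun (φ : MpS (disc (isoPsh C)) X m.unop) =>
    (φ.app (op Wr.pt) m (𝟙 _) (fun _ => false), φ.app (op Wr.pt) m (𝟙 _) (fun _ => true))
  naturality m m' α := by
    refine ConcreteCategory.hom_ext _ _ fun (φ : MpS (disc (isoPsh C)) X m.unop) => ?_
    have key : ∀ b : Bool, φ.app (op Wr.pt) m' (𝟙 _ ≫ α.unop) (fun _ => b) =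
        (X.obj (op Wr.pt)).map α (φ.app (op Wr.pt) m (𝟙 _) (fun _ => b)) := by
      intro b
      refine Eq.trans ?_ (φ.nat_right (op Wr.pt) α (𝟙 _) (fun _ => b))
      rw [Category.comp_id, Category.id_comp]
      rfl
    exact Prod.ext (key false) (key true)

lemma evE_post {X Y : SP (Wr C)} (f : X ⟶ Y) :
    Mp.post (disc (isoPsh C)) f ≫ evE Y = evE X ≫ (f.app (op Wr.pt) ⊗ₘ f.app (op Wr.pt)) := by
  refine NatTrans.ext (funext fun m => ?_)
  refine ConcreteCategory.hom_ext _ _ fun φ => ?_
  rfl

/-- The map from `X` to the restriction of `Y` along `X([0]) ⟶ Y([0])`. -/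
def toRs {X Y : SP (Wr C)} (f : X ⟶ Y) : X ⟶ Rs Y (f.app (op Wr.pt)) where
  app θ :=
    { app := fun k => ↾ fun x => ⟨((f.app θ).app k x, fun i => (X.map (vtx θ.unop i).op).app k x),
        fun i => (hom_nat f (vtx θ.unop i).op x).symm⟩
      naturality := fun k l α => by
        refine ConcreteCategory.hom_ext _ _ fun x => ?_
        exact Subtype.ext (Prod.ext (hom_natk f α x) (funext fun i => sp_nat X _ α x)) }
  naturality θ θ' φ := by
    refine NatTrans.ext (funext fun k => ?_)
    refine ConcreteCategory.hom_ext _ _ fun x => ?_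
    refine Subtype.ext (Prod.ext (hom_nat f φ x) (funext fun i => ?_))
    show (X.map (vtx θ'.unop i).op).app k ((X.map φ).app k x) =
      (X.map (vtx θ.unop (Wr.Hom.f φ.unop i)).op).app k x
    rw [← sp_comp, ← vtx_comp]
    rfl

end

section Flagged

variable {n : ℕ}

lemma levelMap_cst (D : SP (Gn (n + 1))) {i j : Fin (n + 2)} (h : i ≤ j)
    (x : Vt (C := Th n) (level D 0)) :
    vtMap (C := Th n) (levelMap D h) (vlev D x i) = vlev D x j := by
  refine (sp_comp D ((NatTrans.op (secMap (n := n + 1) (Fin.zero_le i))).app (op (ptT (n + 1))))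
    ((NatTrans.op (secMap h)).app (op (ptT (n + 1)))) x).symm.trans ?_
  refine congrArg (fun t => (D.map t).app _ x) ?_
  refine Quiver.Hom.unop_inj ?_
  exact Prod.ext (Category.comp_id _) (Subsingleton.elim _ _)

/-- The presheaf of mapping spaces of `D : D_0 ⟶ … ⟶ D_{n+1}`: at level `i` it is the mapping
presheaf of `D_{i+1}` between the images of the vertices `x`, `y` of `D_0`. -/
def FHm (D : SP (Gn (n + 1))) (x y : Vt (C := Th n) (level D 0)) : SP (Gn n) where
  obj g := Fb (ends (level D g.unop.2.unop.succ) g.unop.1)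
    (vlev D x g.unop.2.unop.succ, vlev D y g.unop.2.unop.succ)
  map {g g'} u :=
    { app := fun k => ↾ fun z => ⟨(D.map ((segG n).map u.unop).op).app k z.1, by
        have hle : g.unop.2.unop.succ ≤ g'.unop.2.unop.succ :=
          Fin.succ_le_succ_iff.mpr (leOfHom u.unop.2.unop)
        have key : ∀ (i : Fin 2) (w : Vt (C := Th n) (level D 0))
            (hz : ((level D g.unop.2.unop.succ).map (vtx (seg g.unop.1) i).op).app k z.1 =
              cst _ (vlev D w g.unop.2.unop.succ) k),
            ((level D g'.unop.2.unop.succ).map (vtx (seg g'.unop.1) i).op).app k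
              ((D.map ((segG n).map u.unop).op).app k z.1) =
            cst _ (vlev D w g'.unop.2.unop.succ) k := by
          intro i w hz
          have h1 := (congrArg (((levelMap D hle).app (op Wr.pt)).app k) hz).trans
            (app_cst ((levelMap D hle).app (op Wr.pt)) (vlev D w g.unop.2.unop.succ) k)
          have h2 := congrArg (fun t => cst ((level D g'.unop.2.unop.succ).obj (op Wr.pt)) t k)
            (levelMap_cst D hle w)
          refine Eq.trans ?_ (h1.trans h2)
          refine (sp_comp D ((segG n).map u.unop).op ((Prod.sectL (Th (n + 1))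
            (op (g'.unop.2.unop.succ))).op.map (Quiver.Hom.op
              (vtx (seg g'.unop.1) i : (ptT (n + 1)) ⟶ (seg g'.unop.1 : Wr (Th n))))) z.1).symm.trans ?_
          refine Eq.trans ?_ (sp_comp D ((Prod.sectL (Th (n + 1))
            (op (g.unop.2.unop.succ))).op.map (Quiver.Hom.op
              (vtx (seg g.unop.1) i : (ptT (n + 1)) ⟶ (seg g.unop.1 : Wr (Th n)))))
            ((NatTrans.op (secMap hle)).app (op (ptT (n + 1)))) z.1)
          refine congrArg (fun t => (D.map t).app k z.1) ?_
          refine Quiver.Hom.unop_inj ?_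
          refine Prod.ext ?_ (Subsingleton.elim _ _)
          refine Wr.hom_ext' ?_ fun (j : Fin 0) _ _ _ => j.elim0
          ext t
          rfl
        have hz := z.2
        exact Prod.ext (key 0 x (congrArg Prod.fst hz)) (key 1 y (congrArg Prod.snd hz))⟩
      naturality := fun k l α => by
        refine ConcreteCategory.hom_ext _ _ fun z => ?_
        exact Subtype.ext (sp_nat D ((segG n).map u.unop).op α z.1) }
  map_id g := by
    refine NatTrans.ext (funext fun k => ?_)
    refine ConcreteCategory.hom_ext _ _ fun z => ?_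
    refine Subtype.ext ?_
    refine Eq.trans ?_ (sp_id D z.1)
    refine congrArg (fun t => (D.map (Quiver.Hom.op t)).app k z.1) ?_
    exact (segG n).map_id g.unop
  map_comp {g g' g''} u v := by
    refine NatTrans.ext (funext fun k => ?_)
    refine ConcreteCategory.hom_ext _ _ fun z => ?_
    refine Subtype.ext ?_
    refine Eq.trans ?_ (sp_comp D ((segG n).map u.unop).op ((segG n).map v.unop).op z.1)
    refine congrArg (fun t => (D.map (Quiver.Hom.op t)).app k z.1) ?_
    exact (segG n).map_comp v.unop u.unop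

/-- The vertex of `D_0` given by a vertex of `X` and a map `filt X ⟶ D`. -/
abbrev vf {X : SP (Th (n + 1))} {D : SP (Gn (n + 1))} (f : filt X ⟶ D) (x : Vt (C := Th n) X) :
    Vt (C := Th n) (level D 0) :=
  (f.app (op (ptT (n + 1), op 0))).app (op (SimplexCategory.mk 0)) x

/-- The sequence `K(X ∘ t_0) ⟶ K(X ∘ t_1) ⟶ … ⟶ K(X ∘ t_n)`, for a simplicial endofunctor
`K`. -/
def seqK (K : SFun (Th n)) (X : SP (Th n)) : SP (Gn n) where
  obj g := (K.obj ((tr n g.unop.2.unop).op ⋙ X)).obj (op g.unop.1)
  map {g g'} u := (K.map (Functor.whiskerRight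
      (NatTrans.op (trMap n g.unop.2.unop g'.unop.2.unop (leOfHom u.unop.2.unop))) X)).app _ ≫
    (K.obj ((tr n g'.unop.2.unop).op ⋙ X)).map u.unop.1.op
  map_id g := by
    have e : Functor.whiskerRight
      (NatTrans.op (trMap n g.unop.2.unop g.unop.2.unop (le_refl _))) X = 𝟙 _ := by
      rw [trMap_refl]
      ext a
      simp
    show (K.map (Functor.whiskerRight
      (NatTrans.op (trMap n g.unop.2.unop g.unop.2.unop (le_refl _))) X)).app _ ≫
      (K.obj ((tr n g.unop.2.unop).op ⋙ X)).map (𝟙 _) = _
    rw [e, K.map_id, CategoryTheory.Functor.map_id]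
    simp
  map_comp {g g' g''} u v := by
    have e : Functor.whiskerRight
        (NatTrans.op (trMap n g.unop.2.unop g''.unop.2.unop (leOfHom (u ≫ v).unop.2.unop))) X =
        Functor.whiskerRight
          (NatTrans.op (trMap n g.unop.2.unop g'.unop.2.unop (leOfHom u.unop.2.unop))) X ≫
        Functor.whiskerRight
          (NatTrans.op (trMap n g'.unop.2.unop g''.unop.2.unop (leOfHom v.unop.2.unop))) X := by
      rw [← trMap_trans n g.unop.2.unop g'.unop.2.unop g''.unop.2.unop (leOfHom u.unop.2.unop)
        (leOfHom v.unop.2.unop)]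
      refine NatTrans.ext (funext fun a => ?_)
      exact X.map_comp _ _
    show (K.map (Functor.whiskerRight
        (NatTrans.op (trMap n g.unop.2.unop g''.unop.2.unop (leOfHom (u ≫ v).unop.2.unop)))
          X)).app _ ≫
      (K.obj ((tr n g''.unop.2.unop).op ⋙ X)).map (u.unop.1.op ≫ v.unop.1.op) = _
    rw [e, K.map_comp, CategoryTheory.Functor.map_comp, NatTrans.comp_app]
    simp only [Category.assoc]
    rw [NatTrans.naturality_assoc]

end Flagged

end

end FL
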