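import Pool.Agent.Helper58.FL.Stage1
import Pool.Agent.Helper36.FL.Filt
import Pool.Agent.Helper25.FL2.TrHm
import Pool.Agent.Helper41.FL2.RR
import Pool.Agent.Helper41.FL2.V4
import Pool.Agent.Helper45.FL2.LocAll
import Pool.Agent.Helper61.FL2.ES
import Pool.Agent.Helper64.FL2.Desc
import Pool.Agent.Helper64.FL2.GauntFinal
import Pool.Agent.Helper64.FL2.SurjFinal
import Pool.Agent.Helper81.FL2.DX
import Pool.Agent.Helper94.FL2.Eps

/-! # F10: the theorem of Ayala and Francis and the conjecture, from the completion theorem -/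

open CategoryTheory MonoidalCategory Opposite

set_option autoImplicit false

namespace Pool.Agent.Helper58.FL2F

open _root_.FL

variable {n : ℕ}

/-- The statements of the last modules. -/
structure KDeps (n : ℕ) : Prop where
  Cp_isCat : ∀ {A : SP (Th n)} (_ : ObjKan A) (_ : Sg n ((RR (Th n)).obj A)),
    IsCat n ((Cp n n).obj A) ∧ ∃ e : (RR (Th n)).obj A ⟶ (Cp n n).obj A,
      (RR (Th n)).η A ≫ e = (Cp n n).η A ∧ ES n n e
  sg_tr : ∀ {X : SP (Th n)} (_ : Sg n X) (i : ℕ), Sg n ((RR (Th n)).obj ((tr n i).op ⋙ X))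
  tr_down : ∀ {X Y : SP (Th n)} (_ : Sg n X) (_ : IsCat n Y) {i : ℕ}
    (e : (tr n i).op ⋙ X ⟶ Y) (e' : (RR (Th n)).obj ((tr n i).op ⋙ X) ⟶ Y)
    (_ : (RR (Th n)).η _ ≫ e' = e) (_ : ES n n e'), ES n i e ∧ Truncated i Y
  tr_up : ∀ {X D : SP (Th n)} (_ : Sg n X) (_ : Sg n D) {i : ℕ} (_ : Truncated i D)
    (e : (tr n i).op ⋙ X ⟶ D) (e' : (RR (Th n)).obj ((tr n i).op ⋙ X) ⟶ D)
    (_ : (RR (Th n)).η _ ≫ e' = e) (_ : ES n i e), ES n n e'
  ES_loc : ∀ {X Y Z : SP (Th n)} (_ : Sg n X) (_ : Sg n Y) (_ : IsCat n Z) {f : X ⟶ Y}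
    (_ : ES n n f), Loc Z f

theorem exists_flagged (H : KDeps n) {X : SP (Th n)} (hX : Sg n X) :
    ∃ (D : SP (Gn n)) (f : filt X ⟶ D), Flagged D ∧
      ∀ i : Fin (n + 1), ES n i (levelHom f i) :=
  Pool.Agent.Helper81.FL2.exists_flagged_of
    { isCat_of_objHoEq := fun hX hY _ hf => Helper41FL2.isCat_of_objHoEq hX hY hf
      Cp_isCat := H.Cp_isCat
      ES_of_arrow_iso := fun e e' h hf => Pool.Agent.Helper61.FL2.ES_of_arrow_iso e e' h hf
      ES_comp := fun hY hZ _ _ hX hf hg => Pool.Agent.Helper61.FL2.ES_comp hY hZ hX hf hg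
      ES_of_objHoEq := fun hX hY _ hf => Pool.Agent.Helper61.FL2.ES_of_objHoEq hX hY hf
      sg_tr := H.sg_tr
      tr_down := H.tr_down
      surj_of_ES := Helper64FL2.surj_of_ES } hX

/-- `N D` is a Segal presheaf. -/
theorem sg_ND {D : SP (Gn n)} (hD : Flagged D) : Sg n (ND D) := by
  have h1 : (YD D).GauntDescent := FLS.YD_gauntDescent hD.inj hD.cat
  have h2 : SegalDescent ((YD D).restr FLS.hrep) :=
    FLS.segalDescent_restr h1 (Pool.Agent.Helper64.FL2.knownGaunt n)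
  have hN : InjFib (ND D) := Pool.Agent.Helper36.FL.ND_injFib hD.inj
  have hK : ObjKan (ND D) := Pool.Agent.Helper61.FL2.kanPt hN
  have h3 : Sg n ((RR (Th n)).obj (ND D)) := (Pool.Agent.Helper64.FL2.segalDescent_iff hK).1 h2
  exact (Helper41FL2.sg_of_objHoEq hN (Helper41FL2.RR_injFib hK)
    (Helper41FL2.RR_objHoEq hK)).2 h3

theorem eps_local (H : KDeps n) {D D' : SP (Gn n)} (hD : Flagged D) (hD' : Flagged D') :
    HoEq (Mp.pre (eps D) D') := by
  refine Pool.Agent.Helper30.FL16.level_lemma_of Pool.Agent.Helper91.FL17a.tool hD'.inj (eps D)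
    fun i k _ => ?_
  have hN := sg_ND hD
  have hK : ObjKan ((tr n i).op ⋙ ND D) := fun a =>
    Pool.Agent.Helper61.FL2.kanPt hN.1 _
  have hL : InjFib (level D i) := (hD.cat i).inj
  obtain ⟨e, -⟩ := Pool.Agent.Helper25.FL2.level_filt (ND D) i
  have hg : ES n i (e.inv ≫ levelHom (eps D) i) :=
    Pool.Agent.Helper61.FL2.ES_of_arrow_iso e (Iso.refl _) (by simp)
      (Pool.Agent.Helper94.FL2.ES_eps hD i)
  obtain ⟨e', he'⟩ := hL _ (Helper41FL2.RR_trivCof hK) (e.inv ≫ levelHom (eps D) i)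
  have h1 : ES n n e' := H.tr_up hN (Helper41FL2.isCat_iff.1 (hD.cat i)).1 (hD.trunc i) _ e'
    he' hg
  have h2 : Loc (level D' k) e' := H.ES_loc (H.sg_tr hN i)
    (Helper41FL2.isCat_iff.1 (hD.cat i)).1 (hD'.cat k) h1
  have hZ : InjFib (level D' k) := (hD'.cat k).inj
  have h3 : Loc (level D' k) ((RR (Th n)).η ((tr n i).op ⋙ ND D)) :=
    Pool.Agent.Helper45.LOC.loc_of_we hZ _ (Helper41FL2.RR_trivCof hK).2
  have h4 : Loc (level D' k) (e.inv ≫ levelHom (eps D) i) := by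
    rw [← he']
    exact Pool.Agent.Helper45.LOC.loc_comp hZ h3 h2
  exact Pool.Agent.Helper45.LOC.loc_of_arrow_iso e.symm (Iso.refl _) (by simp) h4

theorem NDmap_hoEq (H : KDeps n) {D D' : SP (Gn n)} (hD : Flagged D) (hD' : Flagged D') :
    HoEq (NDmap D D') := by
  have h : NDmap D D' = Mp.pre (eps D) D' ≫ (Pool.Agent.Helper36.FL.filtIso (ND D) D').hom := by
    refine NatTrans.ext (funext fun m => ?_)
    refine ConcreteCategory.hom_ext _ _ fun (φ : MpS D D' m.unop) => ?_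
    refine MpS.ext ?_
    funext a l s (ψ : MpS (filt (rep a.unop)) D l.unop)
    refine MpS.ext ?_
    funext g m' t (u : (tower n).obj g.unop ⟶ a.unop)
    show φ.app g m' (t ≫ s) (ψ.app g m' t u) =
      φ.app g m' (t ≫ s) (ψ.app g m' (𝟙 _ ≫ t) (𝟙 ((tower n).obj g.unop) ≫ u))
    rw [Category.id_comp]
    exact congrArg (fun z => φ.app g m' (t ≫ s) (ψ.app g m' t z))
      (Category.id_comp (obj := Th n) u).symm
  rw [h]
  have hI : InjFib (ND D') := Pool.Agent.Helper36.FL.ND_injFib hD'.inj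
  exact Pool.Agent.Helper88.FL.hoEq_comp (Pool.Agent.Helper83.FL4.Mp_kan _ hD'.inj)
    (Pool.Agent.Helper83.FL4.Mp_kan _ hD'.inj) (Pool.Agent.Helper83.FL4.Mp_kan _ hI)
    (eps_local H hD hD') (Pool.Agent.Helper88.FL.hoEq_of_isIso _)

theorem knownTheorem (H : KDeps n) : KnownTheorem n := by
  refine ⟨fun D D' hD hD' => NDmap_hoEq H hD hD', fun X hX => ⟨fun hs => ?_, ?_⟩⟩
  · have hS := (Pool.Agent.Helper64.FL2.segalDescent_iff hX).1 hs
    obtain ⟨D, f, hD, hf⟩ := exists_flagged H hS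
    have h1 := Pool.Agent.Helper94.FL2.objHoEq_flat hS hD.inj hD.cat (sg_ND hD) f hf
    refine ⟨D, hD, (RR (Th n)).η X ≫ flat f, fun a => ?_⟩
    have hK : ObjKan (ND D) := Pool.Agent.Helper61.FL2.kanPt
      (Pool.Agent.Helper36.FL.ND_injFib hD.inj)
    exact Pool.Agent.Helper88.FL.hoEq_comp (hX a) (Helper41FL2.RR_objKan hX a) (hK a)
      (Helper41FL2.RR_objHoEq hX a) (h1 a)
  · rintro ⟨D, hD, f, hf⟩
    have hN : InjFib (ND D) := Pool.Agent.Helper36.FL.ND_injFib hD.inj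
    have hK : ObjKan (ND D) := Pool.Agent.Helper61.FL2.kanPt hN
    refine (Pool.Agent.Helper64.FL2.segalDescent_iff hX).2 ?_
    refine (Helper41FL2.sg_of_objHoEq (Helper41FL2.RR_injFib hX) (Helper41FL2.RR_injFib hK)
      (Helper41FL2.RR_map_objHoEq hX hK hf)).2 ?_
    exact (Helper41FL2.sg_of_objHoEq hN (Helper41FL2.RR_injFib hK)
      (Helper41FL2.RR_objHoEq hK)).1 (sg_ND hD)

theorem conjecture (H : KDeps n) : Conjecture n :=
  FLS.conjecture_of (knownTheorem H) (Pool.Agent.Helper64.FL2.knownGaunt n)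

end Pool.Agent.Helper58.FL2F
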