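import Pool.Agent.Helper58.FL2.Cos

/-!
# Mapping presheaves, vertices, Segal conditions on wreath products
-/

open CategoryTheory MonoidalCategory Simplicial Opposite

set_option autoImplicit false

namespace FL

noncomputable section

variable {C : Type} [SmallCategory C]

/-- The object `[1](c)`. -/
abbrev seg (c : C) : Wr C := ⟨1, fun _ => c⟩

/-- The functoriality of `c ↦ [1](c)`. -/
abbrev segMap {c c' : C} (f : c ⟶ c') : seg c ⟶ seg c' := Wr.ofComp fun _ => f

/-- The vertex `i` of `[m](c)`, as a map `[0] ⟶ [m](c)`. -/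
def vtx (θ : Wr C) (i : Fin (θ.len + 1)) : (Wr.pt : Wr C) ⟶ θ :=
  ({ f := ⟨fun _ => i, fun _ _ _ => le_refl _⟩, g := fun (j : Fin 0) _ _ => j.elim0 } :
    Wr.Hom (⟨0, Fin.elim0⟩ : Wr C) θ)

lemma vtx_comp {θ θ' : Wr C} (i : Fin (θ.len + 1)) (φ : θ ⟶ θ') :
    vtx θ i ≫ φ = vtx θ' (Wr.Hom.f φ i) :=
  Wr.hom_ext' rfl fun (j : Fin 0) _ _ _ => j.elim0

/-- The map `X([1](c)) ⟶ X([0]) × X([0])` given by the two vertices of `[1](c)`. -/
def ends (X : SP (Wr C)) (c : C) :
    X.obj (op (seg c)) ⟶ X.obj (op Wr.pt) ⊗ X.obj (op Wr.pt) :=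
  CartesianMonoidalCategory.lift (X.map (vtx (seg c) 0).op) (X.map (vtx (seg c) 1).op)

lemma ends_app (X : SP (Wr C)) (c : C) (k : SimplexCategoryᵒᵖ)
    (z : (X.obj (op (seg c))).obj k) :
    (ends X c).app k z = ((X.map (vtx (seg c) 0).op).app k z, (X.map (vtx (seg c) 1).op).app k z) :=
  rfl

lemma ends_nat (X : SP (Wr C)) {c c' : C} (f : c ⟶ c') :
    X.map (segMap f).op ≫ ends X c = ends X c' := by
  ext k z
  · show (X.map (vtx (seg c) 0).op).app k ((X.map (segMap f).op).app k z) = _
    rw [← sp_comp, ← op_comp, vtx_comp]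
    rfl
  · show (X.map (vtx (seg c) 1).op).app k ((X.map (segMap f).op).app k z) = _
    rw [← sp_comp, ← op_comp, vtx_comp]
    rfl

/-- The vertices of `X`. -/
abbrev Vt (X : SP (Wr C)) : Type := (X.obj (op Wr.pt)).obj (op ⦋0⦌)

/-- The mapping presheaf `X(x, y)`, the fibre of `X([1](c)) ⟶ X([0]) × X([0])` over `(x, y)`. -/
def Hm (X : SP (Wr C)) (x y : Vt X) : SP C where
  obj c := Fb (ends X c.unop) (x, y)
  map {c c'} f :=
    { app := fun k => ↾ fun z => ⟨(X.map (segMap f.unop).op).app k z.1, by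
        have e := ConcreteCategory.congr_hom (NatTrans.congr_app (ends_nat X f.unop) k) z.1
        exact e.trans z.2⟩
      naturality := fun k l α => by
        refine ConcreteCategory.hom_ext _ _ fun z => ?_
        exact Subtype.ext (sp_nat X (segMap f.unop).op α z.1) }
  map_id c := by
    refine NatTrans.ext (funext fun k => ?_)
    refine ConcreteCategory.hom_ext _ _ fun z => ?_
    refine Subtype.ext ?_
    refine Eq.trans ?_ (sp_id X z.1)
    refine congrArg (fun t => (X.map (Quiver.Hom.op t)).app k z.1) ?_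
    refine Wr.hom_ext' rfl fun i j h h' => ?_
    obtain rfl : i = j := jump_id.mp h
    exact Wr.ofComp_g (X := fun _ => c.unop) (Y := fun _ => c.unop) _ i h
  map_comp {c c' c''} f g := by
    refine NatTrans.ext (funext fun k => ?_)
    refine ConcreteCategory.hom_ext _ _ fun z => ?_
    refine Subtype.ext ?_
    refine Eq.trans ?_ (sp_comp X (segMap f.unop).op (segMap g.unop).op z.1)
    refine congrArg (fun t => (X.map (Quiver.Hom.op t)).app k z.1) ?_
    refine Wr.hom_ext' rfl fun i j h h' => ?_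
    obtain rfl : i = j := jump_id.mp h
    have e := Wr.comp_g (X := seg c''.unop) (Y := seg c'.unop) (Z := seg c.unop)
      (segMap g.unop) (segMap f.unop) (i := i) (j := i) (k := i) (jump_id.mpr rfl)
      (jump_id.mpr rfl)
    refine (Wr.ofComp_g (X := fun _ => c''.unop) (Y := fun _ => c.unop) _ i h).trans ?_
    refine Eq.trans ?_ e.symm
    exact (congrArg₂ (· ≫ ·)
      (Wr.ofComp_g (X := fun _ => c''.unop) (Y := fun _ => c'.unop) (fun _ => g.unop) i
        (jump_id.mpr rfl))
      (Wr.ofComp_g (X := fun _ => c'.unop) (Y := fun _ => c.unop) (fun _ => f.unop) i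
        (jump_id.mpr rfl))).symm

/-- The image of a vertex. -/
abbrev vtMap {X Y : SP (Wr C)} (f : X ⟶ Y) (x : Vt X) : Vt Y := (f.app (op Wr.pt)).app (op ⦋0⦌) x

/-- The functoriality of `X(x, y)`. -/
def HmMap {X Y : SP (Wr C)} (f : X ⟶ Y) (x y : Vt X) :
    Hm X x y ⟶ Hm Y (vtMap f x) (vtMap f y) where
  app c := Fb.map (f.app (op (seg c.unop))) (f.app (op Wr.pt) ⊗ₘ f.app (op Wr.pt))
    (by
      ext k z
      · exact (hom_nat f (vtx (seg c.unop) 0).op z).symm
      · exact (hom_nat f (vtx (seg c.unop) 1).op z).symm) (x, y)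
  naturality c c' g := by
    refine NatTrans.ext (funext fun k => ?_)
    refine ConcreteCategory.hom_ext _ _ fun z => ?_
    exact Subtype.ext (hom_nat f (segMap g.unop).op z.1)

/-- The vertex `0` or `1` of `V[1](B)`, on `k`-simplices: the constant maps to `0` or `1`. -/
def vend (B : SP C) (i : Fin 2) : disc ((Functor.const (Wr C)ᵒᵖ).obj PUnit.{1}) ⟶ V1 B where
  app θ :=
    { app := fun k => ↾ fun _ =>
        { f := ⟨fun _ => i, fun _ _ _ => le_refl _⟩
          g := fun p j h => by
            exfalso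
            have := h.1.trans_lt ((Fin.castSucc_lt_succ).trans_le h.2)
            exact lt_irrefl _ this }
      naturality := fun k l α => by
        ext x
        exact VS.ext' rfl fun p j h h' => by
          exfalso
          have := h.1.trans_lt ((Fin.castSucc_lt_succ).trans_le h.2)
          exact lt_irrefl _ this }
  naturality θ θ' φ := by
    ext k x
    exact VS.ext' rfl fun p j h h' => by
      exfalso
      have := h.1.trans_lt ((Fin.castSucc_lt_succ).trans_le h.2)
      exact lt_irrefl _ this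

/-- Vertex-fibrant presheaves: objectwise Kan, and `X([1](c)) ⟶ X([0]) × X([0])` is a Kan
fibration. -/
def VFib (X : SP (Wr C)) : Prop := ObjKan X ∧ ∀ c : C, KanFib (ends X c)

/-- The object `[r](c_1, …, c_r)` attached to `[r+1](c_1, …, c_{r+1})`. -/
abbrev init {r : ℕ} (c : Fin (r + 1) → C) : Wr C := ⟨r, fun i => c i.castSucc⟩

/-- The inclusion `[r](c_1, …, c_r) ⟶ [r+1](c_1, …, c_{r+1})`. -/
def initMap {r : ℕ} (c : Fin (r + 1) → C) : init c ⟶ (⟨r + 1, c⟩ : Wr C) :=
  ({ f := ⟨fun i => i.castSucc, fun _ _ h => h⟩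
     g := fun (i : Fin r) (j : Fin (r + 1)) h => eqToHom (by
      have h1 : i.1 ≤ j.1 := h.1
      have h2 : j.1 + 1 ≤ i.1 + 1 := h.2
      refine congrArg c (Fin.ext ?_)
      show i.1 = j.1
      omega) } : Wr.Hom (init c) (⟨r + 1, c⟩ : Wr C))

/-- The inclusion `[1](c_{r+1}) ⟶ [r+1](c_1, …, c_{r+1})` of the last segment. -/
def lastMap' {r : ℕ} (c : Fin (r + 1) → C) : seg (c (Fin.last r)) ⟶ (⟨r + 1, c⟩ : Wr C) :=
  ({ f := ⟨fun i => ⟨r + i.1, by have h : i.1 < 2 := i.2; show r + i.1 < r + 1 + 1; omega⟩,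
       fun i j h => by
        rw [Fin.le_def] at h ⊢
        show r + i.1 ≤ r + j.1
        omega⟩
     g := fun (i : Fin 1) (j : Fin (r + 1)) h => eqToHom (by
      have h1 : r + i.1 ≤ j.1 := h.1
      refine congrArg c (Fin.ext ?_)
      have h2 : j.1 < r + 1 := j.2
      show r = j.1
      omega) } : Wr.Hom (seg (c (Fin.last r))) (⟨r + 1, c⟩ : Wr C))

lemma init_last {r : ℕ} (c : Fin (r + 1) → C) :
    vtx (init c) (Fin.last r) ≫ initMap c = vtx (seg (c (Fin.last r))) 0 ≫ lastMap' c := by
  rw [vtx_comp, vtx_comp]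
  rfl

/-- The map `X([r+1](c)) ⟶ X([r](c_1, …, c_r)) ×_{X([0])} X([1](c_{r+1}))`. -/
def binMap (X : SP (Wr C)) {r : ℕ} (c : Fin (r + 1) → C) :
    X.obj (op ⟨r + 1, c⟩) ⟶ Fp (X.map (vtx (init c) (Fin.last r)).op)
      (X.map (vtx (seg (c (Fin.last r))) 0).op) :=
  Fp.lift (X.map (initMap c).op) (X.map (lastMap' c).op) (by
    rw [← X.map_comp, ← X.map_comp, ← op_comp, ← op_comp, init_last])

/-- The Segal condition. -/
def BSeg (X : SP (Wr C)) : Prop := ∀ (r : ℕ) (c : Fin (r + 1) → C), HoEq (binMap X c)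

/-- The Segal condition, for injectively fibrant presheaves: locality with respect to the
spines. -/
def SpLoc (X : SP (Wr C)) : Prop := ∀ θ : Wr C, Loc X (sieveIncl (spine θ))

/-- The coskeleton: `θ ↦ S ^ (vertices of θ)`. -/
@[simps obj_obj]
def Cosk (C : Type) [SmallCategory C] (S : SSet.{0}) : SP (Wr C) where
  obj θ :=
    { obj := fun k => Fin (θ.unop.len + 1) → S.obj k
      map := fun α => ↾ fun u i => S.map α (u i)
      map_id := fun k => by
        ext u i
        exact sset_id S _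
      map_comp := fun α β => by
        ext u i
        exact sset_comp S α β _ }
  map φ :=
    { app := fun k => ↾ fun u i => u (Wr.Hom.f φ.unop i)
      naturality := fun _ _ _ => rfl }
  map_id _ := rfl
  map_comp _ _ := rfl

/-- The map from `Y` to the coskeleton of `Y([0])`. -/
def toCosk (Y : SP (Wr C)) : Y ⟶ Cosk C (Y.obj (op Wr.pt)) where
  app θ :=
    { app := fun k => ↾ fun y i => (Y.map (vtx θ.unop i).op).app k y
      naturality := fun k l α => by
        refine ConcreteCategory.hom_ext _ _ fun y => ?_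
        funext i
        exact sp_nat Y (vtx θ.unop i).op α y }
  naturality θ θ' φ := by
    refine NatTrans.ext (funext fun k => ?_)
    refine ConcreteCategory.hom_ext _ _ fun y => ?_
    funext i
    show (Y.map (vtx θ'.unop i).op).app k ((Y.map φ).app k y) =
      (Y.map (vtx θ.unop (Wr.Hom.f φ.unop i)).op).app k y
    rw [← sp_comp, ← vtx_comp]
    rfl

/-- The restriction `Y|_S` of `Y` along a map `g : S ⟶ Y([0])`. -/
@[simps obj]
def Rs (Y : SP (Wr C)) {S : SSet.{0}} (g : S ⟶ Y.obj (op Wr.pt)) : SP (Wr C) where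
  obj θ :=
    { obj := fun k => { z : (Y.obj θ).obj k × (Fin (θ.unop.len + 1) → S.obj k) //
        ∀ i, (Y.map (vtx θ.unop i).op).app k z.1 = g.app k (z.2 i) }
      map := fun {k l} α => ↾ fun z => ⟨((Y.obj θ).map α z.1.1, fun i => S.map α (z.1.2 i)),
        fun i => by
          show (Y.map (vtx θ.unop i).op).app l ((Y.obj θ).map α z.1.1) = g.app l (S.map α (z.1.2 i))
          rw [sp_nat, sset_nat, z.2 i]⟩
      map_id := fun k => by
        refine ConcreteCategory.hom_ext _ _ fun z => ?_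
        exact Subtype.ext (Prod.ext (sset_id _ _) (funext fun i => sset_id S _))
      map_comp := fun α β => by
        refine ConcreteCategory.hom_ext _ _ fun z => ?_
        exact Subtype.ext (Prod.ext (sset_comp _ α β _) (funext fun i => sset_comp S α β _)) }
  map {θ θ'} φ :=
    { app := fun k => ↾ fun z => ⟨((Y.map φ).app k z.1.1, fun i => z.1.2 (Wr.Hom.f φ.unop i)),
        fun i => by
          refine Eq.trans ?_ (z.2 (Wr.Hom.f φ.unop i))
          show (Y.map (vtx θ'.unop i).op).app k ((Y.map φ).app k z.1.1) = _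
          rw [← sp_comp, ← vtx_comp]
          rfl⟩
      naturality := fun k l α => by
        refine ConcreteCategory.hom_ext _ _ fun z => ?_
        exact Subtype.ext (Prod.ext (sp_nat Y φ α _) rfl) }
  map_id θ := by
    refine NatTrans.ext (funext fun k => ?_)
    refine ConcreteCategory.hom_ext _ _ fun z => ?_
    exact Subtype.ext (Prod.ext (sp_id Y _) rfl)
  map_comp φ ψ := by
    refine NatTrans.ext (funext fun k => ?_)
    refine ConcreteCategory.hom_ext _ _ fun z => ?_
    exact Subtype.ext (Prod.ext (sp_comp Y φ ψ _) rfl)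

/-- The projection `Y|_S ⟶ Y`. -/
def Rs.fst (Y : SP (Wr C)) {S : SSet.{0}} (g : S ⟶ Y.obj (op Wr.pt)) : Rs Y g ⟶ Y where
  app _ := { app := fun _ => ↾ fun z => z.1.1, naturality := fun _ _ _ => rfl }
  naturality _ _ _ := rfl

/-- The projection `Y|_S ⟶ Cosk S`. -/
def Rs.snd (Y : SP (Wr C)) {S : SSet.{0}} (g : S ⟶ Y.obj (op Wr.pt)) : Rs Y g ⟶ Cosk C S where
  app _ := { app := fun _ => ↾ fun z => z.1.2, naturality := fun _ _ _ => rfl }
  naturality _ _ _ := rfl

end

end FL
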