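import Pool.Agent.Helper58.FL.Tools

/-!
# Local maps, sub-presheaves, fibres
-/

open CategoryTheory MonoidalCategory Simplicial Opposite

set_option autoImplicit false

namespace FL

section

variable {A : Type} [SmallCategory A]

/-- The map `f` is local with respect to `X` (usually `X` is injectively fibrant). -/
def Loc (X : SP A) {P Q : SP A} (f : P ⟶ Q) : Prop := HoEq (Mp.pre f X)

/-- Sub-simplicial-presheaves. -/
@[ext]
structure Sb (P : SP A) : Type where
  mem (a : Aᵒᵖ) (k : SimplexCategoryᵒᵖ) : Set ((P.obj a).obj k)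
  mapA : ∀ {a b : Aᵒᵖ} (f : a ⟶ b) (k : SimplexCategoryᵒᵖ) (x : (P.obj a).obj k),
    x ∈ mem a k → (P.map f).app k x ∈ mem b k
  mapk : ∀ (a : Aᵒᵖ) {k l : SimplexCategoryᵒᵖ} (α : k ⟶ l) (x : (P.obj a).obj k),
    x ∈ mem a k → (P.obj a).map α x ∈ mem a l

namespace Sb

variable {P : SP A}

lemma mem_injective : Function.Injective (Sb.mem : Sb P → _) := by
  intro S T h
  exact Sb.ext h

instance : LE (Sb P) := ⟨fun S T => S.mem ≤ T.mem⟩

instance : LT (Sb P) := ⟨fun S T => S.mem < T.mem⟩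

instance : Max (Sb P) := ⟨fun S T =>
  { mem := S.mem ⊔ T.mem
    mapA := fun f k x hx => hx.elim (fun h => Or.inl (S.mapA f k x h))
      fun h => Or.inr (T.mapA f k x h)
    mapk := fun a _ _ α x hx => hx.elim (fun h => Or.inl (S.mapk a α x h))
      fun h => Or.inr (T.mapk a α x h) }⟩

instance : Min (Sb P) := ⟨fun S T =>
  { mem := S.mem ⊓ T.mem
    mapA := fun f k x hx => ⟨S.mapA f k x hx.1, T.mapA f k x hx.2⟩
    mapk := fun a _ _ α x hx => ⟨S.mapk a α x hx.1, T.mapk a α x hx.2⟩ }⟩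

instance : DistribLattice (Sb P) :=
  Function.Injective.distribLattice _ mem_injective Iff.rfl Iff.rfl (fun _ _ => rfl) fun _ _ => rfl

instance : BoundedOrder (Sb P) where
  top := { mem := fun _ _ => Set.univ, mapA := fun _ _ _ _ => trivial,
           mapk := fun _ _ _ _ _ _ => trivial }
  le_top _ _ _ _ _ := trivial
  bot := { mem := fun _ _ => ∅, mapA := fun _ _ _ h => h.elim,
           mapk := fun _ _ _ _ _ h => h.elim }
  bot_le _ _ _ _ h := h.elim

@[simp] lemma mem_sup (S T : Sb P) (a : Aᵒᵖ) (k : SimplexCategoryᵒᵖ) (x : (P.obj a).obj k) :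
    x ∈ (S ⊔ T).mem a k ↔ x ∈ S.mem a k ∨ x ∈ T.mem a k := Iff.rfl

@[simp] lemma mem_inf (S T : Sb P) (a : Aᵒᵖ) (k : SimplexCategoryᵒᵖ) (x : (P.obj a).obj k) :
    x ∈ (S ⊓ T).mem a k ↔ x ∈ S.mem a k ∧ x ∈ T.mem a k := Iff.rfl

@[simp] lemma mem_top (a : Aᵒᵖ) (k : SimplexCategoryᵒᵖ) (x : (P.obj a).obj k) :
    x ∈ (⊤ : Sb P).mem a k := trivial

@[simp] lemma mem_bot (a : Aᵒᵖ) (k : SimplexCategoryᵒᵖ) (x : (P.obj a).obj k) :
    ¬ x ∈ (⊥ : Sb P).mem a k := id

/-- The simplicial presheaf underlying a sub-presheaf. -/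
@[simps obj_obj]
def toSP (S : Sb P) : SP A where
  obj a :=
    { obj := fun k => { x : (P.obj a).obj k // x ∈ S.mem a k }
      map := fun {k l} α => ↾ fun x => ⟨(P.obj a).map α x.1, S.mapk a α x.1 x.2⟩
      map_id := fun k => by
        ext x
        exact sset_id (P.obj a) x.1
      map_comp := fun α β => by
        ext x
        exact sset_comp (P.obj a) α β x.1 }
  map {a b} f :=
    { app := fun k => ↾ fun x => ⟨(P.map f).app k x.1, S.mapA f k x.1 x.2⟩
      naturality := fun k l α => by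
        ext x
        exact sp_nat P f α x.1 }
  map_id a := by
    ext k x
    exact sp_id P x.1
  map_comp f g := by
    ext k x
    exact sp_comp P f g x.1

/-- The inclusion of a sub-presheaf. -/
def ι (S : Sb P) : S.toSP ⟶ P where
  app _ := { app := fun _ => ↾ fun x => x.1, naturality := fun _ _ _ => rfl }
  naturality _ _ _ := rfl

/-- A map which sends the sub-presheaf `S` into `T` restricts to a map `S ⟶ T`. -/
def restr {Q : SP A} (f : P ⟶ Q) (S : Sb P) (T : Sb Q)
    (h : ∀ (a : Aᵒᵖ) (k : SimplexCategoryᵒᵖ) (x : (P.obj a).obj k), x ∈ S.mem a k → (f.app a).app k x ∈ T.mem a k) : S.toSP ⟶ T.toSP where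
  app a :=
    { app := fun k => ↾ fun x => ⟨(f.app a).app k x.1, h a k x.1 x.2⟩
      naturality := fun k l α => by
        refine ConcreteCategory.hom_ext _ _ fun x => ?_
        exact Subtype.ext (hom_natk f α x.1) }
  naturality a b g := by
    refine NatTrans.ext (funext fun k => ?_)
    refine ConcreteCategory.hom_ext _ _ fun x => ?_
    exact Subtype.ext (hom_nat f g x.1)

/-- The inclusion of sub-presheaves. -/
def ofLE {S T : Sb P} (h : S ≤ T) : S.toSP ⟶ T.toSP where
  app a := { app := fun k => ↾ fun x => ⟨x.1, h a k x.2⟩, naturality := fun _ _ _ => rfl }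
  naturality _ _ _ := rfl

/-- The image of a map, as a sub-presheaf. -/
def range {Q : SP A} (f : P ⟶ Q) : Sb Q where
  mem a k := Set.range ((f.app a).app k)
  mapA := by
    rintro a b g k _ ⟨y, rfl⟩
    exact ⟨(P.map g).app k y, hom_nat f g y⟩
  mapk := by
    rintro a k l α _ ⟨y, rfl⟩
    exact ⟨(P.obj a).map α y, hom_natk f α y⟩

/-- The preimage of a sub-presheaf. -/
def comap {Q : SP A} (f : P ⟶ Q) (S : Sb Q) : Sb P where
  mem a k := { x | (f.app a).app k x ∈ S.mem a k }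
  mapA := by
    intro a b g k x hx
    show (f.app b).app k ((P.map g).app k x) ∈ S.mem b k
    rw [hom_nat]
    exact S.mapA g k _ hx
  mapk := by
    intro a k l α x hx
    show (f.app a).app l ((P.obj a).map α x) ∈ S.mem a l
    rw [hom_natk]
    exact S.mapk a α _ hx

end Sb

/-- `S ≤ T`, and the inclusion is local with respect to `X`. -/
def LocT (X : SP A) {P : SP A} (S T : Sb P) : Prop := ∃ h : S ≤ T, Loc X (Sb.ofLE h)

/-- Simplicial homotopy equivalences of simplicial presheaves. -/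
def SHE {X Y : SP A} (f : X ⟶ Y) : Prop :=
  ∃ g : Y ⟶ X, (∃ h : MpS X X ⦋1⦌, h.res (SimplexCategory.δ 1) = MpS.ofHom ⦋0⦌ (f ≫ g) ∧
    h.res (SimplexCategory.δ 0) = MpS.ofHom ⦋0⦌ (𝟙 X)) ∧
    ∃ h : MpS Y Y ⦋1⦌, h.res (SimplexCategory.δ 1) = MpS.ofHom ⦋0⦌ (g ≫ f) ∧
    h.res (SimplexCategory.δ 0) = MpS.ofHom ⦋0⦌ (𝟙 Y)

end

section Fibres

/-- The constant `k`-simplex at the vertex `x`. -/
def cst (K : SSet.{0}) (x : K.obj (op ⦋0⦌)) (k : SimplexCategoryᵒᵖ) : K.obj k :=
  K.map (SimplexCategory.const k.unop ⦋0⦌ 0).op x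

lemma cst_map (K : SSet.{0}) (x : K.obj (op ⦋0⦌)) {k l : SimplexCategoryᵒᵖ} (α : k ⟶ l) :
    K.map α (cst K x k) = cst K x l := by
  refine (sset_comp K _ α x).symm.trans ?_
  refine congrArg (fun t => K.map t x) ?_
  refine Quiver.Hom.unop_inj ?_
  ext i : 3
  exact Subsingleton.elim (α := Fin 1) _ _

lemma cst_zero (K : SSet.{0}) (x : K.obj (op ⦋0⦌)) : cst K x (op ⦋0⦌) = x := by
  refine Eq.trans ?_ (sset_id K x)
  refine congrArg (fun t => K.map t x) ?_
  refine Quiver.Hom.unop_inj ?_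
  ext i : 3
  exact Subsingleton.elim (α := Fin 1) _ _

lemma app_cst {K L : SSet.{0}} (f : K ⟶ L) (x : K.obj (op ⦋0⦌)) (k : SimplexCategoryᵒᵖ) :
    f.app k (cst K x k) = cst L (f.app _ x) k := sset_nat f _ x

/-- The fibre of `p : E ⟶ B` over the vertex `b`. -/
@[simps obj]
def Fb {E B : SSet.{0}} (p : E ⟶ B) (b : B.obj (op ⦋0⦌)) : SSet.{0} where
  obj k := { z : E.obj k // p.app k z = cst B b k }
  map {k l} α := ↾ fun z => ⟨E.map α z.1, by
    rw [sset_nat p α z.1, z.2, cst_map]⟩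
  map_id k := by
    ext z
    exact sset_id E z.1
  map_comp α β := by
    ext z
    exact sset_comp E α β z.1

/-- The map of fibres induced by a commutative square. -/
def Fb.map {E B E' B' : SSet.{0}} {p : E ⟶ B} {p' : E' ⟶ B'} (f : E ⟶ E') (g : B ⟶ B')
    (h : f ≫ p' = p ≫ g) (b : B.obj (op ⦋0⦌)) : Fb p b ⟶ Fb p' (g.app _ b) where
  app k := ↾ fun z => ⟨f.app k z.1, by
    have := ConcreteCategory.congr_hom (NatTrans.congr_app h k) z.1
    refine this.trans ?_
    show g.app k (p.app k z.1) = _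
    rw [z.2, app_cst]⟩
  naturality k l α := by
    refine ConcreteCategory.hom_ext _ _ fun z => ?_
    exact Subtype.ext (sset_nat f α z.1)

/-- The inclusion of the fibre. -/
def Fb.ι {E B : SSet.{0}} (p : E ⟶ B) (b : B.obj (op ⦋0⦌)) : Fb p b ⟶ E where
  app _ := ↾ fun z => z.1
  naturality _ _ _ := rfl

/-- Two vertices are connected by an edge. -/
def Cn (B : SSet.{0}) (b b' : B.obj (op ⦋0⦌)) : Prop :=
  ∃ e : B.obj (op ⦋1⦌), B.map (SimplexCategory.δ 1).op e = b ∧
    B.map (SimplexCategory.δ 0).op e = b'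

/-- The fibre product of `p : E ⟶ B` and `q : E' ⟶ B`. -/
@[simps obj]
def Fp {E E' B : SSet.{0}} (p : E ⟶ B) (q : E' ⟶ B) : SSet.{0} where
  obj k := { z : E.obj k × E'.obj k // p.app k z.1 = q.app k z.2 }
  map {k l} α := ↾ fun z => ⟨(E.map α z.1.1, E'.map α z.1.2), by
    show p.app l (E.map α z.1.1) = q.app l (E'.map α z.1.2)
    rw [sset_nat p, sset_nat q, z.2]⟩
  map_id k := by
    refine ConcreteCategory.hom_ext _ _ fun z => ?_
    exact Subtype.ext (Prod.ext (sset_id E z.1.1) (sset_id E' z.1.2))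
  map_comp α β := by
    refine ConcreteCategory.hom_ext _ _ fun z => ?_
    exact Subtype.ext (Prod.ext (sset_comp E α β z.1.1) (sset_comp E' α β z.1.2))

/-- The first projection of a fibre product. -/
def Fp.fst {E E' B : SSet.{0}} (p : E ⟶ B) (q : E' ⟶ B) : Fp p q ⟶ E where
  app _ := ↾ fun z => z.1.1
  naturality _ _ _ := rfl

/-- The second projection of a fibre product. -/
def Fp.snd {E E' B : SSet.{0}} (p : E ⟶ B) (q : E' ⟶ B) : Fp p q ⟶ E' where
  app _ := ↾ fun z => z.1.2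
  naturality _ _ _ := rfl

/-- The universal property of fibre products. -/
def Fp.lift {E E' B K : SSet.{0}} {p : E ⟶ B} {q : E' ⟶ B} (f : K ⟶ E) (g : K ⟶ E')
    (h : f ≫ p = g ≫ q) : K ⟶ Fp p q where
  app k := ↾ fun z => ⟨(f.app k z, g.app k z), ConcreteCategory.congr_hom (NatTrans.congr_app h k) z⟩
  naturality k l α := by
    refine ConcreteCategory.hom_ext _ _ fun z => ?_
    exact Subtype.ext (Prod.ext (sset_nat f α z) (sset_nat g α z))

/-- Functoriality of fibre products. -/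
def Fp.map {E E' B F F' D : SSet.{0}} {p : E ⟶ B} {q : E' ⟶ B} {r : F ⟶ D} {s : F' ⟶ D}
    (f : E ⟶ F) (f' : E' ⟶ F') (g : B ⟶ D) (h : f ≫ r = p ≫ g) (h' : f' ≫ s = q ≫ g) :
    Fp p q ⟶ Fp r s where
  app k := ↾ fun z => ⟨(f.app k z.1.1, f'.app k z.1.2), by
    have e := ConcreteCategory.congr_hom (NatTrans.congr_app h k) z.1.1
    have e' := ConcreteCategory.congr_hom (NatTrans.congr_app h' k) z.1.2
    refine e.trans (Eq.trans ?_ e'.symm)
    exact congrArg (g.app k) z.2⟩
  naturality k l α := by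
    refine ConcreteCategory.hom_ext _ _ fun z => ?_
    exact Subtype.ext (Prod.ext (sset_nat f α z.1.1) (sset_nat f' α z.1.2))

end Fibres

end FL
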