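import Pool.Agent.Helper58.FL2.Frames

/-!
# Predicates and constructions for the proof of the theorem of Ayala and Francis
-/

open CategoryTheory MonoidalCategory Opposite

set_option autoImplicit false

namespace FL

noncomputable section

section Phi

variable {C : Type} [SmallCategory C]

/-- The projection `[m](c) ↦ [m]`. -/
@[simps]
def kap (C : Type) [SmallCategory C] : Wr C ⥤ SimplexCategory where
  obj θ := SimplexCategory.mk θ.len
  map φ := SimplexCategory.Hom.mk (Wr.Hom.f φ)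

/-- The monotone map underlying the image of an `m`-simplex of `N` under `s : N ⟶ Δ[r]`. -/
def sh {r : ℕ} {N : SSet.{0}} (s : N ⟶ SSet.stdSimplex.obj (SimplexCategory.mk r)) {m : ℕ}
    (x : N.obj (op (SimplexCategory.mk m))) : Fin (m + 1) →o Fin (r + 1) :=
  (SSet.stdSimplex.objEquiv (s.app _ x)).toOrderHom

lemma sh_map {r : ℕ} {N : SSet.{0}} (s : N ⟶ SSet.stdSimplex.obj (SimplexCategory.mk r))
    {m m' : ℕ} (f : Fin (m' + 1) →o Fin (m + 1)) (x : N.obj (op (SimplexCategory.mk m))) :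
    sh s (N.map (Quiver.Hom.op (SimplexCategory.Hom.mk f :
      SimplexCategory.mk m' ⟶ SimplexCategory.mk m)) x) = (sh s x).comp f := by
  show (SSet.stdSimplex.objEquiv (s.app _ (N.map _ x))).toOrderHom = _
  rw [sset_nat s]
  rfl

/-- A `k`-simplex at `θ` of the pullback of `V[r](B)` along `s : N ⟶ Δ[r]`. -/
structure PhS {r : ℕ} (B : Fin r → SP C) {N : SSet.{0}}
    (s : N ⟶ SSet.stdSimplex.obj (SimplexCategory.mk r)) (θ : Wr C) (k : SimplexCategoryᵒᵖ) :
    Type where
  x : N.obj (op (SimplexCategory.mk θ.len))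
  g : ∀ (i : Fin θ.len) (j : Fin r), Jump (sh s x) i j → ((B j).obj (op (θ.obj i))).obj k

namespace PhS

variable {r : ℕ} {B : Fin r → SP C} {N : SSet.{0}}
  {s : N ⟶ SSet.stdSimplex.obj (SimplexCategory.mk r)}

lemma ext' {θ : Wr C} {k : SimplexCategoryᵒᵖ} {u v : PhS B s θ k} (hx : u.x = v.x)
    (hg : ∀ i j (h : Jump (sh s u.x) i j) (h' : Jump (sh s v.x) i j),
      u.g i j h = v.g i j h') : u = v := by
  obtain ⟨x, g⟩ := u
  obtain ⟨x', g'⟩ := v
  simp only at hx
  subst hx
  congr 1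
  funext i j h
  exact hg i j h h

/-- The simplicial structure. -/
@[simps x g]
def mapk {θ : Wr C} {k l : SimplexCategoryᵒᵖ} (α : k ⟶ l) (u : PhS B s θ k) : PhS B s θ l where
  x := u.x
  g i j h := ((B j).obj (op (θ.obj i))).map α (u.g i j h)

lemma jump_aux {θ θ' : Wr C} (φ : θ' ⟶ θ) (x : N.obj (op (SimplexCategory.mk θ.len)))
    {i : Fin θ'.len} {j : Fin r}
    (h : Jump (sh s (N.map ((kap C).map φ).op x)) i j) :
    Jump ((sh s x).comp (Wr.Hom.f φ)) i j := by
  have e := sh_map s (Wr.Hom.f φ) x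
  exact (congrArg (fun t => Jump t i j) e).mp h

/-- The presheaf structure. -/
@[simps x]
def mapθ {θ θ' : Wr C} (φ : θ' ⟶ θ) {k : SimplexCategoryᵒᵖ} (u : PhS B s θ k) :
    PhS B s θ' k where
  x := N.map ((kap C).map φ).op u.x
  g i j h := ((B j).map (Wr.Hom.g φ i (jump_aux φ u.x h).split.choose
    (jump_aux φ u.x h).split.choose_spec.1).op).app k
    (u.g (jump_aux φ u.x h).split.choose j (jump_aux φ u.x h).split.choose_spec.2)

lemma mapθ_g {θ θ' : Wr C} (φ : θ' ⟶ θ) {k : SimplexCategoryᵒᵖ} (u : PhS B s θ k)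
    {i : Fin θ'.len} {j : Fin θ.len} {l : Fin r} (h : Jump (Wr.Hom.f φ) i j)
    (h' : Jump (sh s u.x) j l) (h'' : Jump (sh s (mapθ φ u).x) i l) :
    (mapθ φ u).g i l h'' = ((B l).map (Wr.Hom.g φ i j h).op).app k (u.g j l h') := by
  have hj := (jump_aux φ u.x h'').split.choose_spec
  have e : (jump_aux φ u.x h'').split.choose = j := hj.2.unique h'
  show ((B l).map (Wr.Hom.g φ i _ hj.1).op).app k (u.g _ l hj.2) = _
  have aux : ∀ j' (e : j' = j) (h1 : Jump (Wr.Hom.f φ) i j') (h2 : Jump (sh s u.x) j' l),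
      ((B l).map (Wr.Hom.g φ i j' h1).op).app k (u.g j' l h2) =
        ((B l).map (Wr.Hom.g φ i j h).op).app k (u.g j l h') := by
    rintro j' rfl h1 h2; rfl
  exact aux _ e _ _

end PhS

/-- The pullback of `V[r](B_1, …, B_r)` along `s : N ⟶ Δ[r]`. -/
def Ph {r : ℕ} (B : Fin r → SP C) {N : SSet.{0}}
    (s : N ⟶ SSet.stdSimplex.obj (SimplexCategory.mk r)) : SP (Wr C) where
  obj θ :=
    { obj := fun k => PhS B s θ.unop k
      map := fun α => ↾ fun u => u.mapk α
      map_id := fun k => by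
        refine ConcreteCategory.hom_ext _ _ fun (u : PhS B s θ.unop k) => ?_
        refine PhS.ext' rfl fun i j h h' => ?_
        exact sset_id _ _
      map_comp := fun {k l m} α β => by
        refine ConcreteCategory.hom_ext _ _ fun (u : PhS B s θ.unop k) => ?_
        refine PhS.ext' rfl fun i j h h' => ?_
        exact sset_comp _ α β _ }
  map {θ θ'} φ :=
    { app := fun k => ↾ fun (u : PhS B s θ.unop k) => u.mapθ φ.unop
      naturality := fun k l α => by
        refine ConcreteCategory.hom_ext _ _ fun (u : PhS B s θ.unop k) => ?_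
        refine PhS.ext' rfl fun i j h h' => ?_
        obtain ⟨r, hr, hr'⟩ := Jump.split (f := Wr.Hom.f φ.unop) (g := sh s u.x)
          (PhS.jump_aux φ.unop u.x h)
        refine (PhS.mapθ_g φ.unop (u.mapk α) hr hr' h).trans ?_
        refine Eq.trans ?_ (congrArg (((B j).obj (op (θ'.unop.obj i))).map α)
          (PhS.mapθ_g φ.unop u hr hr' h')).symm
        exact sp_nat (B j) _ α _ }
  map_id θ := by
    refine NatTrans.ext (funext fun k => ?_)
    refine ConcreteCategory.hom_ext _ _ fun (u : PhS B s θ.unop k) => ?_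
    refine PhS.ext' ?_ fun i j h h' => ?_
    · show N.map _ u.x = u.x
      exact sset_id N u.x
    · refine (PhS.mapθ_g (𝟙 θ.unop) u (jump_id.mpr rfl) h' h).trans ?_
      exact sp_id (B j) _
  map_comp {θ θ' θ''} φ ψ := by
    refine NatTrans.ext (funext fun k => ?_)
    refine ConcreteCategory.hom_ext _ _ fun (u : PhS B s θ.unop k) => ?_
    refine PhS.ext' ?_ fun i l h h' => ?_
    · exact sset_comp N ((kap C).map φ.unop).op ((kap C).map ψ.unop).op u.x
    · obtain ⟨r, hr, hr'⟩ := Jump.split (f := Wr.Hom.f (ψ.unop ≫ φ.unop)) (g := sh s u.x)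
        (PhS.jump_aux (ψ.unop ≫ φ.unop) u.x h)
      obtain ⟨t, ht, ht'⟩ := Jump.split (f := Wr.Hom.f ψ.unop) (g := Wr.Hom.f φ.unop) hr
      refine (PhS.mapθ_g (ψ.unop ≫ φ.unop) u hr hr' h).trans ?_
      have h2 : Jump (sh s (u.mapθ φ.unop).x) t l := by
        have e := sh_map s (Wr.Hom.f φ.unop) u.x
        exact (congrArg (fun q => Jump q t l) e).mpr (ht'.comp hr')
      refine Eq.trans ?_ (PhS.mapθ_g ψ.unop (u.mapθ φ.unop) ht h2 h').symm
      refine Eq.trans ?_ (congrArg (((B l).map (Wr.Hom.g ψ.unop i t ht).op).app k)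
        (PhS.mapθ_g φ.unop u ht' hr' h2)).symm
      have e := Wr.comp_g ψ.unop φ.unop ht ht'
      have e' : Wr.Hom.g (ψ.unop ≫ φ.unop) i r hr =
        Wr.Hom.g (ψ.unop ≫ φ.unop) i r (ht.comp ht') := rfl
      rw [e', e, op_comp]
      exact sp_comp (B l) _ _ _

/-- The functoriality of `Ph` in the simplicial set over `Δ[r]`. -/
def Ph.map {r : ℕ} (B : Fin r → SP C) {N N' : SSet.{0}} (i : N ⟶ N')
    (s : N' ⟶ SSet.stdSimplex.obj (SimplexCategory.mk r)) : Ph B (i ≫ s) ⟶ Ph B s where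
  app θ :=
    { app := fun k => ↾ fun (u : PhS B (i ≫ s) θ.unop k) =>
        ({ x := i.app _ u.x, g := fun p j h => u.g p j h } : PhS B s θ.unop k)
      naturality := fun _ _ _ => rfl }
  naturality θ θ' φ := by
    refine NatTrans.ext (funext fun k => ?_)
    refine ConcreteCategory.hom_ext _ _ fun (u : PhS B (i ≫ s) θ.unop k) => ?_
    refine PhS.ext' ?_ fun p j h h' => rfl
    exact sset_nat i _ u.x

/-- The face of `V[m](B)` spanned by the set of vertices `U`. -/
def vface {m : ℕ} (B : Fin m → SP C) (U : Finset (Fin (m + 1))) : Sb (V B) where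
  mem θ k := { (u : VS B θ.unop k) | ∀ i, u.f i ∈ U }
  mapA := by
    rintro θ θ' φ k u h
    exact fun i => h _
  mapk := by
    rintro θ k l α u h
    exact h

/-- The sub-presheaf of `h_{[r+1](c)}` generated by `[r](c_1, …, c_r)` and `[1](c_{r+1})`. -/
def binSb {r : ℕ} (c : Fin (r + 1) → C) : Sb (rep (⟨r + 1, c⟩ : Wr C)) where
  mem η _ := fun (φ : η.unop ⟶ (⟨r + 1, c⟩ : Wr C)) =>
    (∀ t, (Wr.Hom.f φ t).1 ≤ r) ∨ ∀ t, r ≤ (Wr.Hom.f φ t).1
  mapA := by
    rintro η η' f k φ (h | h)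
    · exact Or.inl fun t => h _
    · exact Or.inr fun t => h _
  mapk := by
    rintro η k l α φ h
    exact h

/-- The sub-presheaf of `h_{[r+1](c)} × E[m]` of all pairs with first component in `binSb c`. -/
def E0bin {r : ℕ} (c : Fin (r + 1) → C) (m : SimplexCategory) :
    Sb (E0o (rep (⟨r + 1, c⟩ : Wr C)) m) where
  mem η k := { z | z.1 ∈ (binSb c).mem η k }
  mapA := by
    rintro η η' f k z h
    exact (binSb c).mapA f k z.1 h
  mapk := by
    rintro η k l α z h
    exact (binSb c).mapk η α z.1 h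

/-- The sub-presheaf of `T([r+1](c))_m` generated by `T([r](c_1, …, c_r))_m` and
`T([1](c_{r+1}))_m`. -/
def binT (T : Fr (Wr C)) {r : ℕ} (c : Fin (r + 1) → C) (m : SimplexCategory) :
    Sb ((T.obj ⟨r + 1, c⟩).obj m) :=
  Sb.range ((T.map (initMap c)).app m) ⊔ Sb.range ((T.map (lastMap' c)).app m)

/-- Frames for which `Kf T X` is a Segal object. -/
structure GoodFr (X : SP (Wr C)) (T : Fr (Wr C)) : Prop where
  ext : ∀ θ, Ext X (T.obj θ)
  mono_init : ∀ {r : ℕ} (c : Fin (r + 1) → C) (m : SimplexCategory) (a : (Wr C)ᵒᵖ),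
    Mono (((T.map (initMap c)).app m).app a)
  mono_last : ∀ {r : ℕ} (c : Fin (r + 1) → C) (m : SimplexCategory) (a : (Wr C)ᵒᵖ),
    Mono (((T.map (lastMap' c)).app m).app a)
  inter : ∀ {r : ℕ} (c : Fin (r + 1) → C) (m : SimplexCategory),
    Sb.range ((T.map (initMap c)).app m) ⊓ Sb.range ((T.map (lastMap' c)).app m) ≤
      Sb.range ((T.map (vtx ⟨r + 1, c⟩ (Fin.last r).castSucc)).app m)
  mono_vtx : ∀ (θ : Wr C) (i : Fin (θ.len + 1)) (m : SimplexCategory) (a : (Wr C)ᵒᵖ),
    Mono (((T.map (vtx θ i)).app m).app a)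
  disj : ∀ (c : C) (m : SimplexCategory),
    Sb.range ((T.map (vtx (seg c) 0)).app m) ⊓ Sb.range ((T.map (vtx (seg c) 1)).app m) = ⊥
  bin : ∀ {r : ℕ} (c : Fin (r + 1) → C) (m : SimplexCategory), LocT X (binT T c m) ⊤
  edge : ∀ (c : C) (i : Fin 2), HasLiftingProperty
    (SSet.horn 1 i).ι (ends (Kf T X) c)

/-- The map `Map(P, X) ⟶ (m ↦ Hom(P × E[m] × Δ[m], X))`. -/
def augY (P X : SP (Wr C)) : Mp P X ⟶ Yc ((E0 C).obj P) X where
  app m := ↾ fun φ => (MpS.ofHom m.unop ((E0aug P).app m.unop)).comp φ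
  naturality _ _ _ := rfl

/-- The comparison map
`Map(P, X) ⟶ Hom(P × E[•] × Δ[•], X) ×_{Hom(S × E[•] × Δ[•], X)} Map(S, X)`. -/
def relMap {P : SP (Wr C)} (S : Sb P) (X : SP (Wr C)) :
    Mp P X ⟶ Fp (Yc.pre ((E0 C).map S.ι) X) (augY S.toSP X) :=
  Fp.lift (augY P X) (Mp.pre S.ι X) rfl

end Phi

/-- The terminal object of `Θ_n`. -/
def ptT : (n : ℕ) → Th n
  | 0 => (⟨PUnit.unit⟩ : Discrete PUnit.{1})
  | (_ + 1) => Wr.pt

/-- Segal presheaves, for injectively fibrant presheaves. -/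
def Sg (n : ℕ) (X : SP (Th n)) : Prop :=
  InjFib X ∧ ∀ (θ : Th n) (S : Sieve θ), SegCov n θ S → Loc X (sieveIncl S)

/-- The completeness map of level `j`. -/
inductive IsComplJ : (n j : ℕ) → {X Y : SP (Th n)} → (X ⟶ Y) → Prop
  | base (n : ℕ) : IsComplJ (n + 1) 0 (X := disc (isoPsh (Th n))) (Y := one (Wr (Th n)))
      (isoMap (Th n))
  | susp {n j : ℕ} {X Y : SP (Th n)} (f : X ⟶ Y) (h : IsComplJ n j f) :
      IsComplJ (n + 1) (j + 1) (X := V1 X) (Y := V1 Y) (V1map f)

/-- Completeness at level `j`. -/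
def Cj (n j : ℕ) (X : SP (Th n)) : Prop :=
  ∀ (P Q : SP (Th n)) (f : P ⟶ Q), IsComplJ n j f → Loc X f

/-- Maps which are surjective on `k`-morphisms for `k < i`, and equivalences on spaces of
`i`-morphisms. -/
def ES : (n i : ℕ) → {X Y : SP (Th n)} → (X ⟶ Y) → Prop
  | 0, _, _, _, f => HoEq (f.app (op (ptT 0)))
  | (n + 1), 0, _, _, f => HoEq (f.app (op (ptT (n + 1))))
  | (n + 1), (i + 1), X, Y, f =>
      (∀ y : Vt (C := Th n) Y, ∃ x : Vt (C := Th n) X,
        Cn (Y.obj (op (ptT (n + 1)))) (vtMap (C := Th n) f x) y) ∧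
      ∀ x y : Vt (C := Th n) X, ES n i (HmMap (C := Th n) f x y)

section Flagged

variable {n : ℕ}

/-- The counit `filt (ND D) ⟶ D`. -/
def eps (D : SP (Gn n)) : filt (ND D) ⟶ D where
  app g :=
    { app := fun k => ↾ fun (φ : MpS (filt (rep ((tower n).obj g.unop))) D k.unop) =>
        φ.app g k (𝟙 _) (𝟙 ((tower n).obj g.unop))
      naturality := fun k l α => by
        ext (φ : MpS (filt (rep ((tower n).obj g.unop))) D k.unop)
        have := φ.nat_right g α (𝟙 _) (𝟙 ((tower n).obj g.unop))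
        refine Eq.trans ?_ this
        show φ.app g l (𝟙 _ ≫ α.unop) _ = φ.app g l (α.unop ≫ 𝟙 _) _
        rw [Category.comp_id, Category.id_comp]
        rfl }
  naturality g g' f := by
    ext k (φ : MpS (filt (rep ((tower n).obj g.unop))) D k.unop)
    have := φ.nat_left f k (𝟙 _) (𝟙 ((tower n).obj g.unop))
    refine Eq.trans ?_ this
    show φ.app g' k (𝟙 _) _ = φ.app g' k (𝟙 _) _
    refine congrArg (φ.app g' k (𝟙 _)) ?_
    show 𝟙 _ ≫ (tower n).map f.unop = (tower n).map f.unop ≫ 𝟙 _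
    exact (Category.id_comp _).trans (Category.comp_id _).symm

/-- The map `X ⟶ ND D` adjoint to `f : filt X ⟶ D`. -/
def flat {X : SP (Th n)} {D : SP (Gn n)} (f : filt X ⟶ D) : X ⟶ ND D where
  app a :=
    { app := fun k => ↾ fun (x : (X.obj a).obj k) =>
        ({ app := fun g m t (u : (tower n).obj g.unop ⟶ a.unop) =>
            (f.app g).app m ((X.map (Quiver.Hom.op u)).app m ((X.obj a).map t.op x))
           nat_left := fun {g g'} h m t u => by
            refine (congrArg ((f.app g').app m) (sp_comp X (Quiver.Hom.op u)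
              ((tower n).map h.unop).op _)).trans ?_
            exact hom_nat f h _
           nat_right := fun g {m m'} β t u => by
            refine (congrArg (fun z => (f.app g).app m' ((X.map (Quiver.Hom.op u)).app m' z))
              (sset_comp _ t.op β x)).trans ?_
            refine (congrArg ((f.app g).app m') (sp_nat X (Quiver.Hom.op u) β _)).trans ?_
            exact hom_natk f β _ } : MpS (filt (rep a.unop)) D k.unop)
      naturality := fun k l α => by
        ext (x : (X.obj a).obj k)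
        refine MpS.ext ?_
        funext g m t u
        exact congrArg (fun z => (f.app g).app m ((X.map (Quiver.Hom.op u)).app m z))
          (sset_comp _ α t.op x).symm }
  naturality a b h := by
    ext k (x : (X.obj a).obj k)
    refine MpS.ext ?_
    funext g m t (u : (tower n).obj g.unop ⟶ b.unop)
    refine congrArg ((f.app g).app m) ?_
    show (X.map (Quiver.Hom.op u)).app m ((X.obj b).map t.op ((X.map h).app k x)) =
      (X.map (Quiver.Hom.op (u ≫ h.unop))).app m ((X.obj a).map t.op x)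
    rw [← sp_nat, ← sp_comp]
    rfl

/-- The vertex `x_i` of `D_i([0])` attached to a vertex `x` of `D_0([0])`. -/
abbrev vlev (D : SP (Gn (n + 1))) (x : Vt (C := Th n) (level D 0)) (i : Fin (n + 2)) :
    Vt (C := Th n) (level D i) :=
  vtMap (C := Th n) (levelMap D (Fin.zero_le i)) x

/-- The functor `(c, i) ↦ ([1](c), i + 1)`. -/
def segG (n : ℕ) : Gn n ⥤ Gn (n + 1) where
  obj g := (seg g.1, op g.2.unop.succ)
  map {g g'} u := (segMap u.1, (homOfLE (Fin.succ_le_succ_iff.mpr (leOfHom u.2.unop))).op)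
  map_id g := by
    refine Prod.ext ?_ (Subsingleton.elim _ _)
    refine Wr.hom_ext' rfl fun i j h h' => ?_
    obtain rfl : i = j := jump_id.mp h
    exact Wr.ofComp_g (X := fun _ => g.1) (Y := fun _ => g.1) _ i h
  map_comp {g g' g''} u v := by
    refine Prod.ext ?_ (Subsingleton.elim _ _)
    refine Wr.hom_ext' rfl fun i j h h' => ?_
    obtain rfl : i = j := jump_id.mp h
    have e := Wr.comp_g (X := seg g.1) (Y := seg g'.1) (Z := seg g''.1)
      (segMap u.1) (segMap v.1) (i := i) (j := i) (k := i) (jump_id.mpr rfl)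
      (jump_id.mpr rfl)
    refine (Wr.ofComp_g (X := fun _ => g.1) (Y := fun _ => g''.1) _ i h).trans ?_
    refine Eq.trans ?_ e.symm
    exact (congrArg₂ (· ≫ ·)
      (Wr.ofComp_g (X := fun _ => g.1) (Y := fun _ => g'.1) (fun _ => u.1) i
        (jump_id.mpr rfl))
      (Wr.ofComp_g (X := fun _ => g'.1) (Y := fun _ => g''.1) (fun _ => v.1) i
        (jump_id.mpr rfl))).symm

end Flagged

end

end FL
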